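import Pool.Agent.MP_7b2404_lc.Small
import Pool.Agent.MP_7b2404_lc.K

-- part MP_7b2404_lc.Model
section

/-!
The inner model satisfies GCH and the negative polarized relation.
-/

namespace Pool.Agent.MP_7b2404_lc

open Pool.Agent.Lib.Forcing Pool.Agent.Lib.ForcingU Set Cardinal Ordinal

variable {P : Type 1} [Preorder P]

theorem hull_inter {A A' : Set P} {V : Ult (RO P)} (h : V.P (RO.hull A)) (h' : V.P (RO.hull A')) :
    ∃ p, (∃ a ∈ A, p ≤ a) ∧ ∃ a ∈ A', p ≤ a := by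
  by_contra hc
  refine V.bot (V.mono (fun p hp => ?_) ((V.inf _ _).2 ⟨h, h'⟩))
  obtain ⟨h1, h2⟩ := RO.mem_inf.1 hp
  obtain ⟨q, hq, a, ha, hqa⟩ := h1 p le_rfl
  obtain ⟨r, hr, h3⟩ := h2 q hq
  exact (hc ⟨r, ⟨a, ha, hr.trans hqa⟩, h3⟩).elim

theorem frc_set {p : P} {a : Nm (RO P)} {S : Set Ordinal.{0}}
    (h : Frc p fun V => V.E (V.cl a) (V.cl (setN S))) :
    ∃ q ≤ p, ∃ β ∈ S, Frc q fun V => V.cl a = V.cl (oN β) := by
  obtain ⟨q, hq, i, -, hi⟩ := h.mem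
  exact ⟨q, hq, i.1, i.2, hi⟩

theorem omega1_limit : Order.IsSuccLimit (ω₁ : Ordinal.{0}) := la_zero ▸ la_limit 0

namespace Data

variable (d : Data P)
include d

theorem collapse {α : Ordinal.{0}} (hα : InK α) (V : Ult (RO P)) :
    Leq V.E (V.cl (oN (bo (α + 1)))) (V.cl (oN (la α))) := by
  let v : Ordinal.{0} × Ordinal.{0} → RO P := fun s => RO.hull {p | d.T α p s.1 s.2}
  let G := grN (fun s : Ordinal.{0} × Ordinal.{0} => oN s.1) (fun s => oN s.2) v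
  refine ⟨V.cl G, fun x hx => ?_, fun x x' z z' a b => ?_⟩
  · refine o_elim _ (fun V x => ∃ y, V.E y (V.cl (oN (la α))) ∧ Ap V.E (V.cl G) x y)
      (fun W x hx => Frc.all_dense (Φ := fun V => ∃ y, V.E y (V.cl (oN (la α))) ∧
        Ap V.E (V.cl G) (V.cl (oN x)) y) (fun p => ?_) W) V x hx
    obtain ⟨q, hq, η, h⟩ := d.T_tot α hα x hx p
    exact ⟨q, hq, fun Y hY => ⟨_, o_intro Y (d.T_lt h),
      Y.ap_grN _ _ v (x, η) (Frc.hull_intro (A := {p | d.T α p x η}) h le_rfl Y hY)⟩⟩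
  · refine ap_elim _ _ v (fun V x z => ∀ x' z', Ap V.E (V.cl G) x' z' → (x = x' ↔ z = z'))
      (fun V j hj x' z' h => ?_) V x z a x' z' b
    refine ap_elim _ _ v (fun V x' z' => V.P (v j) →
      (V.cl (oN j.1) = x' ↔ V.cl (oN j.2) = z')) (fun W k hk hj => ?_) V x' z' h hj
    obtain ⟨p, ⟨a, ha, h1⟩, b, hb, h2⟩ := hull_inter hj hk
    rw [o_inj, o_inj]
    exact d.T_inj (d.T_mono h1 ha) (d.T_mono h2 hb)

theorem noinj {α : Ordinal.{0}} (hα : InK α) {S T : Set Ordinal.{0}} (hS : #S ≤ bc α)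
    (hT : bc α < #T) (V : Ult (RO P)) : ¬ Leq V.E (V.cl (setN T)) (V.cl (setN S)) := by
  refine Frc.all_contra (Φ := fun V => ¬ Leq V.E (V.cl (setN T)) (V.cl (setN S)))
    (fun p hp => ?_) V
  obtain ⟨f, hf⟩ := Frc.wit (fun V f => (∀ x, V.E x (V.cl (setN T)) →
    ∃ y, V.E y (V.cl (setN S)) ∧ Ap V.E f x y) ∧
    ∀ x x' y y', Ap V.E f x y → Ap V.E f x' y' → (x = x' ↔ y = y')) (hp.imp fun _ => not_not.1)
  obtain ⟨q, hq, c, hc⟩ := d.cover hα hS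
    (fun r (i : S) (a : Ordinal.{0}) => Frc r fun V => Ap V.E (V.cl f) (V.cl (oN a)) (V.cl (oN i)))
    (fun _ _ _ _ h => Frc.mono h) p
  have : ¬ T ⊆ range c := fun h => by
    refine (hT.trans_le ((mk_le_mk_of_subset h).trans (mk_range_le.trans ?_))).false
    simp only [mk_prod, Cardinal.lift_id]
    exact mul_le_bc hS (d.cardJ α hα)
  obtain ⟨a, ha, ha'⟩ := not_subset.1 this
  obtain ⟨y, hy⟩ := Frc.wit (fun V y => V.E y (V.cl (setN S)) ∧ Ap V.E (V.cl f) (V.cl (oN a)) y)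
    ((hf.mono hq).imp fun V h => h.1 _ (set_intro V ha))
  obtain ⟨r, hr, i, hi, e⟩ := frc_set (hy.imp fun _ h => h.1)
  have h1 : Frc r fun V => Ap V.E (V.cl f) (V.cl (oN a)) (V.cl (oN i)) :=
    (e.and (hy.mono hr)).imp fun V h => h.1 ▸ h.2.2
  obtain ⟨s, hs, k, hk⟩ := hc ⟨i, hi⟩ a r hr h1
  obtain ⟨W, a1, a2, a3⟩ := (hk.and ((h1.mono hs).and (hf.mono (hs.trans (hr.trans hq))))).ex
  exact ha' ⟨_, (o_inj W).1 ((a3.2 _ _ _ _ a1 a2).2 rfl)⟩

theorem card_o {κ : Ordinal.{0}} (h : ∀ η < κ, ∃ α, InK α ∧ η.card ≤ ℶ_ α ∧ ℶ_ α < κ.card)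
    (V : Ult (RO P)) : Card V.E (V.cl (oN κ)) := by
  refine ⟨o_ord V κ, o_elim κ (fun V y => ¬ Leq V.E (V.cl (oN κ)) y) (fun W η hη => ?_) V⟩
  obtain ⟨α, h1, h2, h3⟩ := h η hη
  rw [oN_eq, oN_eq]
  apply d.noinj h1 <;> rw [mk_Iio]
  · exact Cardinal.lift_le.2 h2
  · exact Cardinal.lift_lt.2 h3

theorem card_la {α : Ordinal.{0}} (h : InK α) (V : Ult (RO P)) : Card V.E (V.cl (oN (la α))) :=
  d.card_o (fun η hη => ⟨α, h, lt_la.1 hη, by simp⟩) V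

theorem card_mu (V : Ult (RO P)) : Card V.E (V.cl (oN (bo ω₁))) := by
  refine d.card_o (fun η hη => ?_) V
  obtain ⟨β, h1, h2⟩ := exists_lt_bo omega1_limit hη
  exact ⟨β, InK.omega1.mono h1.le, (Cardinal.lt_ord.1 h2).le, by simpa using h1⟩

theorem card_cases {η α : Ordinal.{0}} (hα : InK α) (h1 : bo α ≤ η) (h2 : η < bo (α + 1))
    {V : Ult (RO P)} (h : Card V.E (V.cl (oN η))) : η = bo α ∨ η = la α := by
  rcases lt_trichotomy η (la α) with a | a | a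
  · refine Or.inl (h1.eq_or_lt.resolve_right fun b => h.2 _ (o_intro V b) ?_).symm
    exact leq_o V (by simpa using lt_la.1 a)
  · exact Or.inr a
  · exact (h.2 _ (o_intro V a) ((d.collapse hα V).sub_left (o_sub V h2.le))).elim

theorem gch (U : Ult (RO P)) : GCH (EW U.E (WW U)) := by
  refine (d.inner U).gch fun w c p e hc he hw h1 h2 h3 h4 => ?_
  rw [om_eq U hw] at h1
  refine ord_elim (fun V c => Sub V.E (V.cl (oN ω)) c → ∀ p e, WW V e → IsOrd V.E e →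
    (∀ z, V.E z p ↔ Sub V.E z c) → Lt V.E e p → Leq V.E e c) (fun V η hη a1 p e he ho a2 a3 => ?_)
    U c hc h1.1.1 h1.2 p e he h3.1 h2 h4
  obtain ⟨α, b1, b2⟩ := exists_level ((o_sub_iff V).1 a1)
  have hα : InK α := hη.level η.card_le_beth b1
  have : ∃ β, InK β ∧ η.card ≤ ℶ_ β ∧
      ∀ W : Ult (RO P), Leq W.E (W.cl (oN (bo β))) (W.cl (oN η)) := by
    rcases lt_or_ge η (la α) with a | a
    · exact ⟨α, hα, lt_la.1 a, fun W => leq_o W (Ordinal.card_le_card b1)⟩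
    · exact ⟨α + 1, hα.succ, (Cardinal.lt_ord.1 b2).le,
        fun W => (d.collapse hα W).sub_right (o_sub W a)⟩
  obtain ⟨β, c1, c2, c3⟩ := this
  have hx : #(setN (B := RO P) (Iio η)).ι ≤ bc β := (mk_Iio η).trans_le (Cardinal.lift_le.2 c2)
  have hp : Leq V.E p (V.cl (oN (la β))) := by
    refine Leq.trans (Leq.sub_left (leq_card V (d.YN β (setN (Iio η))) (bo (β + 1)) ?_)
      fun z hz => d.mem_YN c1 _ hx V z ?_) (d.collapse c1 V)
    · simpa using d.card_YN c1 _ hx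
    · exact oN_eq (B := RO P) η ▸ (a2 z).1 hz
  refine ord_elim (fun V e => ∀ p, Leq V.E p (V.cl (oN (la β))) → Lt V.E e p →
    Leq V.E e (V.cl (oN η))) (fun W ζ _ p a b => ?_) V e he ho p hp a3
  rcases lt_or_ge ζ (la β) with h | h
  · exact (leq_o W (by simpa using lt_la.1 h)).trans (c3 W)
  · exact (b.2 (a.sub_right (o_sub W h))).elim

theorem aleph (V : Ult (RO P)) : AlephOm1 V.E (V.cl (oN ω)) (V.cl (oN (bo ω₁))) := by
  have hω : ∀ α, ω ≤ bo α := fun α => by simpa using bo_mono (zero_le (a := α))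
  refine ⟨d.card_mu V, fun h => ?_, ?_⟩
  · refine d.noinj InK.zero (S := Iio ω) (T := la '' Iio ω₁) (by simp [mk_Iio]) ?_ V ?_
    · rw [mk_image_eq_of_injOn _ _ fun a _ b _ e => beth_strictMono.injective (by simpa using e),
        ← la_zero, mk_Iio]
      exact Cardinal.lift_lt.2 (by simp)
    · rw [← oN_eq]
      refine le_mono h (set_elim _ (fun V c => V.E c (V.cl (oN (bo ω₁))) ∧
        InfCard V.E (V.cl (oN ω)) c) ?_ V) fun _ a => a
      rintro W _ ⟨j, hj, rfl⟩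
      exact ⟨o_intro W ((la_le_bo j).trans_lt (bo_lt (omega1_limit.add_one_lt hj))),
        d.card_la (InK.omega1.mono (le_of_lt hj)) W, o_sub W ((hω j).trans (bo_lt_la j).le)⟩
  · refine o_elim _ (fun V a => Le V.E (fun c => V.E c a ∧ InfCard V.E (V.cl (oN ω)) c)
      (fun n => V.E n (V.cl (oN ω)))) (fun W ζ hζ => ?_) V
    obtain ⟨j, h1, h2⟩ := exists_lt_bo omega1_limit hζ
    have hj : #(Iio j) ≤ bc 0 := mk_Iio_le (la_zero ▸ h1)
    refine le_mono (leq_set W (bo '' Iio j ∪ la '' Iio j) ω ?_) (fun c hc => ?_) fun _ a => a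
    · simpa using (mk_union_le _ _).trans (add_le_bc (mk_image_le.trans hj) (mk_image_le.trans hj))
    · refine o_elim ζ (fun V c => InfCard V.E (V.cl (oN ω)) c →
        V.E c (V.cl (setN (bo '' Iio j ∪ la '' Iio j)))) (fun Y η hη h => ?_) W c hc.1 hc.2
      obtain ⟨α, b1, b2⟩ := exists_level ((o_sub_iff Y).1 h.2)
      have hα : α < j := by
        by_contra hc
        exact (hη.trans h2).not_ge ((bo_mono (not_lt.1 hc)).trans b1)
      apply set_intro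
      exact (d.card_cases (InK.omega1.mono (hα.trans h1).le) b1 b2 h.1).imp
        (fun e => ⟨α, hα, e.symm⟩) fun e => ⟨α, hα, e.symm⟩

theorem succ (V : Ult (RO P)) : Succ V.E (V.cl (oN (bo ω₁))) (V.cl (oN (la ω₁))) :=
  ⟨d.card_la InK.omega1 V, o_intro V (bo_lt_la _),
    o_elim _ (fun V a => Leq V.E a (V.cl (oN (bo ω₁))))
      (fun W η hη => leq_o W (by simpa using lt_la.1 hη)) V⟩

theorem escape {p : P} {A h : Nm (RO P)} {L : Ordinal.{0}}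
    (h1 : Frc p fun V => (∀ x, V.E x (V.cl (oN (bo ω₁))) →
      ∃ y, V.E y (V.cl A) ∧ Ap V.E (V.cl h) x y) ∧
      ∀ x x' y y', Ap V.E (V.cl h) x y → Ap V.E (V.cl h) x' y' → (x = x' ↔ y = y'))
    (h2 : Frc p fun V => Sub V.E (V.cl A) (V.cl (oN L))) {ξ : Ordinal.{0}} (hξ : ξ < ω₁)
    {S : Set Ordinal.{0}} (hS : #S ≤ bc ξ) :
    ∃ t ≤ p, ∃ β < L, β ∉ S ∧ (Frc t fun V => V.E (V.cl (oN β)) (V.cl A)) ∧
      ∃ i < bo ω₁, Frc t fun V => Ap V.E (V.cl h) (V.cl (oN i)) (V.cl (oN β)) := by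
  by_contra hc
  have key : ∀ i < bo ω₁, Frc p fun V => ∃ y, V.E y (V.cl (setN S)) ∧
      Ap V.E (V.cl h) (V.cl (oN i)) y := by
    intro i hi
    refine Frc.of_dense fun r hr => ?_
    obtain ⟨y, hy⟩ := Frc.wit (fun V y => V.E y (V.cl A) ∧ Ap V.E (V.cl h) (V.cl (oN i)) y)
      ((h1.mono hr).imp fun V h => h.1 _ (o_intro V hi))
    obtain ⟨s, hs, β, hβ, e⟩ := frc_set (S := Iio L) ((hy.and (h2.mono hr)).imp fun V a =>
      oN_eq (B := RO P) L ▸ a.2 _ a.1.1)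
    have a1 := (e.and (hy.mono hs)).imp (Ψ := fun V => V.E (V.cl (oN β)) (V.cl A) ∧
      Ap V.E (V.cl h) (V.cl (oN i)) (V.cl (oN β))) fun V a => a.1 ▸ a.2
    have hS : β ∈ S := by
      by_contra hβ'
      exact hc ⟨s, hs.trans hr, β, hβ, hβ', a1.imp fun _ a => a.1, i, hi, a1.imp fun _ a => a.2⟩
    exact ⟨s, hs, a1.imp fun V a => ⟨_, set_intro V hS, a.2⟩⟩
  obtain ⟨V, hV⟩ := Frc.exists_ult p
  refine d.noinj (InK.omega1.mono hξ.le) hS (T := Iio (bo ω₁)) ((bc_lt hξ).trans_eq (mk_Iio_bo _).symm) V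
    ⟨V.cl h, fun x hx => ?_, (h1 V hV).2⟩
  exact set_elim _ (fun V x => V.P (RO.cd p) → ∃ y, V.E y (V.cl (setN S)) ∧ Ap V.E (V.cl h) x y)
    (fun W i hi => key i hi W) V x hx hV

theorem not_arrow (U : Ult (RO P)) : ¬ Arrow U.E (U.cl (oN (la ω₁))) (U.cl (oN (bo ω₁))) := by
  let v : Iio (la ω₁) × Iio (bo ω₁) × Bool → RO P := fun s =>
    RO.hull {p | d.C p s.1.1 s.2.1.1 s.2.2}
  let X : Iio (la ω₁) × Iio (bo ω₁) × Bool → Nm (RO P) := fun s => opN (oN s.1.1) (oN s.2.1.1)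
  let Y : Bool → Nm (RO P) := fun b => oN (cond b (0 + 1) 0)
  let f := grN X (fun s => Y s.2.2) v
  let D : Nm (RO P) := prodN (setN (Iio (la ω₁))) (setN (Iio (bo ω₁)))
  have hD : ∀ (V : Ult (RO P)) p, V.E p (V.cl D) ↔ ∃ a b, V.E a (V.cl (oN (la ω₁))) ∧
      V.E b (V.cl (oN (bo ω₁))) ∧ Pr V.E a b p := by
    intro V p
    constructor
    · exact mem_elim D (fun V p => ∃ a b, V.E a (V.cl (oN (la ω₁))) ∧
        V.E b (V.cl (oN (bo ω₁))) ∧ Pr V.E a b p)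
        (fun W s _ => ⟨_, _, o_intro W s.1.2, o_intro W s.2.2, W.pr_opN _ _⟩) V p
    · rintro ⟨a, b, ha, hb, hp⟩
      rw [oN_eq] at ha hb
      obtain ⟨q, h1, h2⟩ := ap_prod V _ _ ha hb
      exact pr_unique V.zfc h1 hp ▸ h2
  have hf : ∀ p β (hβ : β < la ω₁) x (hx : x < bo ω₁) ε, d.C p β x ε →
      Frc p fun V => Ap V.E (V.cl f) (V.cl (opN (oN β) (oN x))) (V.cl (Y ε)) :=
    fun p β hβ x hx ε h V hV => V.ap_grN X (fun s => Y s.2.2) v (⟨β, hβ⟩, ⟨x, hx⟩, ε)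
      (Frc.hull_intro (A := {p | d.C p β x ε}) h le_rfl V hV)
  have hu : ∀ (V : Ult (RO P)) x y, Ap V.E (V.cl f) x y → ∀ y', Ap V.E (V.cl f) x y' → y = y' := by
    refine ap_elim _ _ v (fun V x y => ∀ y', Ap V.E (V.cl f) x y' → y = y')
      fun V j hj y' h => ?_
    refine ap_elim _ _ v (fun V x' y' => V.P (v j) → x' = V.cl (X j) → V.cl (Y j.2.2) = y')
      (fun W k hk hj e => ?_) V _ y' h hj rfl
    obtain ⟨p, ⟨a, ha, h1⟩, b, hb, h2⟩ := hull_inter hj hk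
    simp only [X, W.opN_inj, o_inj] at e
    have h3 := d.C_mono h2 hb
    rw [e.1, e.2] at h3
    rw [d.C_fun (d.C_mono h1 ha) h3]
  intro hA
  refine Frc.all_contra (Φ := fun V => ¬ ∃ A B, Sub V.E A (V.cl (oN (la ω₁))) ∧
    Sub V.E B (V.cl (oN (bo ω₁))) ∧ Leq V.E (V.cl (oN (bo ω₁))) A ∧ Leq V.E (V.cl (oN (bo ω₁))) B ∧
      ∃ e, ∀ a b p, V.E a A → V.E b B → Pr V.E a b p → Ap V.E (V.cl f) p e) (fun p hp => ?_) U ?_
  swap
  · obtain ⟨A, B, a1, a2, a3, a4, a5⟩ := hA (U.cl D) (U.cl f) (hD U) ⟨grN_dom _ _ _ _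
      (fun V s _ => (hD V _).2 ⟨_, _, o_intro V s.1.2, o_intro V s.2.1.2, V.pr_opN _ _⟩) U,
      fun x hx => existsUnique_of_exists_of_unique (mem_elim D (fun V x => ∃ y, Ap V.E (V.cl f) x y)
        (fun W s _ => Frc.all_dense (Φ := fun V => ∃ y, Ap V.E (V.cl f) (V.cl (D.fn s)) y)
          (fun p => let ⟨q, hq, ε, h⟩ := d.C_tot s.1.1 s.1.2 s.2.1 s.2.2 p
            ⟨q, hq, (hf q _ s.1.2 _ s.2.2 ε h).imp fun _ a => ⟨_, a⟩⟩) W) U x hx)
        fun y y' a b => hu U x y a y' b,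
      ap_elim _ _ v (fun V _ e => Emp V.E e ∨ ∃ z, Emp V.E z ∧ Suc V.E z e) (fun V s _ => by
        obtain ⟨_, _, _ | _⟩ := s
        · exact Or.inl (o_emp V)
        · exact Or.inr ⟨_, o_emp V, o_suc V 0⟩) U⟩
    exact ⟨A, B, a1, a2, a3.2, a4.2, a5⟩
  obtain ⟨A, hp⟩ := Frc.wit (fun V A => ∃ B, Sub V.E A (V.cl (oN (la ω₁))) ∧
    Sub V.E B (V.cl (oN (bo ω₁))) ∧ Leq V.E (V.cl (oN (bo ω₁))) A ∧ Leq V.E (V.cl (oN (bo ω₁))) B ∧
      ∃ e, ∀ a b p, V.E a A → V.E b B → Pr V.E a b p → Ap V.E (V.cl f) p e)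
    (hp.imp fun _ => not_not.1)
  obtain ⟨B, hp⟩ := Frc.wit (fun V B => Sub V.E (V.cl A) (V.cl (oN (la ω₁))) ∧
    Sub V.E B (V.cl (oN (bo ω₁))) ∧ Leq V.E (V.cl (oN (bo ω₁))) (V.cl A) ∧
    Leq V.E (V.cl (oN (bo ω₁))) B ∧
      ∃ e, ∀ a b p, V.E a (V.cl A) → V.E b B → Pr V.E a b p → Ap V.E (V.cl f) p e) hp
  obtain ⟨e, he⟩ := Frc.wit (fun V e => ∀ a b p, V.E a (V.cl A) → V.E b (V.cl B) → Pr V.E a b p →
    Ap V.E (V.cl f) p e) (hp.imp fun _ a => a.2.2.2.2)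
  obtain ⟨g, hg⟩ := Frc.wit (fun V g => (∀ x, V.E x (V.cl (oN (bo ω₁))) →
      ∃ y, V.E y (V.cl A) ∧ Ap V.E g x y) ∧
      ∀ x x' y y', Ap V.E g x y → Ap V.E g x' y' → (x = x' ↔ y = y')) (hp.imp fun _ a => a.2.2.1)
  obtain ⟨k, hk⟩ := Frc.wit (fun V g => (∀ x, V.E x (V.cl (oN (bo ω₁))) →
      ∃ y, V.E y (V.cl B) ∧ Ap V.E g x y) ∧
      ∀ x x' y y', Ap V.E g x y → Ap V.E g x' y' → (x = x' ↔ y = y')) (hp.imp fun _ a => a.2.2.2.1)
  obtain ⟨q, hq, c, hc⟩ := d.cover InK.omega1 (mk_Iio_bo ω₁).le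
    (fun r (i : Iio (bo ω₁)) (a : Ordinal.{0}) =>
      Frc r fun V => Ap V.E (V.cl g) (V.cl (oN i)) (V.cl (oN a))) (fun _ _ _ _ h => Frc.mono h) p
  obtain ⟨γ, hγ, hγ'⟩ := bdd_la (α := ω₁) (ι := Iio (bo ω₁) × d.J ω₁) (by
    simp only [mk_prod, Cardinal.lift_id]
    exact mul_le_bc (mk_Iio_bo _).le (d.cardJ _ InK.omega1))
    (fun s => if c s < la ω₁ then c s else 0) fun s => by
      split_ifs with h
      · exact h
      · exact (la_limit _).bot_lt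
  obtain ⟨r, hr, ξ, hξ, Z, hZ, H⟩ := d.split q (γ + 1) ((la_limit _).add_one_lt hγ)
    (fun t => {β | Frc t fun V => V.E (V.cl (oN β)) (V.cl A)})
    (fun t t' h β hβ => Frc.mono h hβ) fun t ht ξ hξ S hS => by
      obtain ⟨t', ht', β, b1, b2, b3, i, hi, b4⟩ := d.escape (hg.mono (ht.trans hq))
        ((hp.mono (ht.trans hq)).imp fun _ a => a.1) hξ hS
      refine ⟨t', ht', β, b3, ?_, b2⟩
      obtain ⟨s, hs, h, b5⟩ := hc ⟨i, hi⟩ β t' (ht'.trans ht) b4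
      obtain ⟨W, a1, a2, a3⟩ :=
        (b5.and ((b4.mono hs).and (hg.mono (hs.trans (ht'.trans (ht.trans hq)))))).ex
      have e := (o_inj W).1 ((a3.2 _ _ _ _ a1 a2).1 rfl)
      have := hγ' (⟨i, hi⟩, h)
      rw [e, if_pos b1] at this
      exact Order.lt_add_one_iff.2 this
  obtain ⟨t, ht, x, hx, hxZ, hxB, -⟩ := d.escape (hk.mono (hr.trans hq))
    ((hp.mono (hr.trans hq)).imp fun _ a => a.2.1) hξ hZ
  have key : ∀ ε, ∀ s ≤ t, ∃ s' ≤ s, Frc s' fun V => V.cl (Y ε) = V.cl e := by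
    intro ε s hs
    obtain ⟨s', hs', β, b1, b2, b3⟩ := H x hx hxZ ε s (hs.trans ht)
    refine ⟨s', hs', fun V hV => hu V _ _
      (hf s' β (b2.trans ((la_limit _).add_one_lt hγ)) x hx ε b3 V hV) _ ?_⟩
    exact he.mono (hs'.trans (hs.trans (ht.trans (hr.trans hq)))) V hV _ _ _ (b1 V hV)
      (hxB.mono (hs'.trans hs) V hV) (V.pr_opN _ _)
  obtain ⟨s, hs, a1⟩ := key true t le_rfl
  obtain ⟨s', hs', a2⟩ := key false s hs
  obtain ⟨W, b1, b2⟩ := (a2.and (a1.mono hs')).ex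
  simpa using (o_inj W).1 (b2.trans b1.symm)

theorem model : ∃ (M : Type 2) (E : M → M → Prop), ZFC E ∧ GCH E ∧
    ∃ w k l, Om E w ∧ AlephOm1 E w k ∧ Succ E k l ∧ ¬ Arrow E l k := by
  obtain ⟨p⟩ := d.ne
  obtain ⟨U, -⟩ := Frc.exists_ult p
  have h := d.inner U
  refine ⟨_, EW U.E (WW U), h.zfcW, d.gch U, ⟨_, (sml_o (β := ω) InK.zero (by simp)).ww U⟩,
    ⟨_, (sml_o (β := bo ω₁) InK.omega1 (by simp)).ww U⟩,
    ⟨_, (sml_o (β := la ω₁) InK.omega1.succ ?_).ww U⟩, h.om_iff.2 (o_om U),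
    h.aleph (d.aleph U), h.succ (d.succ U), h.not_arrow (d.not_arrow U)⟩
  simpa using Ordinal.card_le_card (la_le_bo ω₁)

end Data

end Pool.Agent.MP_7b2404_lc

end

-- part MP_7b2404_lc.Lay
section

/-!
Forcings that split, at many levels, into a small head and a strategically closed tail.
-/

namespace Pool.Agent.MP_7b2404_lc

open Cardinal Ordinal Set Order

theorem glue {A X : Type*} [Nonempty X] (ε : Ordinal.{0}) (Dm : Ordinal.{0} → A → Prop)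
    (v : Ordinal.{0} → A → X)
    (h : ∀ ζ ζ', ζ < ζ' → ζ' < ε → ∀ z, Dm ζ z → v ζ' z = v ζ z) :
    ∃ w : A → X, ∀ ζ < ε, ∀ z, Dm ζ z → w z = v ζ z := by
  have : ∀ z, ∃ x, ∀ ζ < ε, Dm ζ z → x = v ζ z := by
    intro z
    by_cases hz : ∃ ζ < ε, Dm ζ z
    · obtain ⟨ζ, h1, h2⟩ := hz
      refine ⟨v ζ z, fun ζ' h3 h4 => ?_⟩
      rcases lt_trichotomy ζ ζ' with a | a | a
      · exact (h _ _ a h3 z h2).symm
      · rw [a]
      · exact h _ _ a h1 z h4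
    · exact ⟨Classical.arbitrary X, fun ζ h1 h2 => (hz ⟨ζ, h1, h2⟩).elim⟩
  choose w hw using this
  exact ⟨w, fun ζ h1 z => hw z ζ h1⟩

theorem exists_lub (ε : Ordinal.{0}) (a : Ordinal.{0} → Ordinal.{0}) :
    ∃ b, (∀ ζ < ε, a ζ ≤ b) ∧ ∀ η < b, ∃ ζ < ε, η < a ζ :=
  ⟨⨆ ζ : Iio ε, a ζ, fun ζ h => Ordinal.le_iSup (fun ζ : Iio ε => a ζ) ⟨ζ, h⟩, fun _ h =>
    let ⟨ζ, h'⟩ := Ordinal.lt_iSup_iff.1 h; ⟨ζ.1, ζ.2, h'⟩⟩

theorem lub_lt_la {α ε b : Ordinal.{0}} (hε : ε ≤ bo α) {a : Ordinal.{0} → Ordinal.{0}}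
    (h : ∀ η < b, ∃ ζ < ε, η < a ζ) (ha : ∀ ζ < ε, a ζ < la α) : b < la α := by
  obtain ⟨c, h1, h2⟩ := bdd_la (ι := Iio ε) (mk_Iio_le (hε.trans_lt (bo_lt_la α)))
    (fun ζ => a ζ) fun ζ => ha _ ζ.2
  refine lt_of_le_of_lt (le_of_forall_lt fun η hη => ?_) h1
  obtain ⟨ζ, h3, h4⟩ := h η hη
  exact h4.trans_le (h2 ⟨ζ, h3⟩)

theorem mk_supp {A X : Type 1} (S : Set A) (Y : Set X) (x : X) :
    #{f : A → X | (∀ a ∈ S, f a ∈ Y) ∧ ∀ a ∉ S, f a = x} ≤ #Y ^ #S := by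
  rw [power_def]
  refine mk_le_of_injective (f := fun f a => ⟨f.1 a.1, f.2.1 a.1 a.2⟩) fun f g e => ?_
  refine Subtype.ext (funext fun a => ?_)
  by_cases h : a ∈ S
  · exact congrArg Subtype.val (congrFun e ⟨a, h⟩)
  · rw [f.2.2 a h, g.2.2 a h]

/-- Tables of length below `ℶ_β⁺`. -/
def Tab {A X : Type 1} (β : Ordinal.{0}) (S : Ordinal.{0} → Set A) (Y : Set X) (x : X) :
    Set (Ordinal.{0} × (A → X)) :=
  {T | T.1 < la β ∧ (∀ a ∈ S T.1, T.2 a ∈ Y) ∧ ∀ a ∉ S T.1, T.2 a = x}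

theorem mk_tab {A X : Type 1} (β : Ordinal.{0}) (S : Ordinal.{0} → Set A) (Y : Set X) (x : X)
    (hS : ∀ l < la β, #(S l) ≤ bc β) (hY : #Y ≤ bc (β + 1)) : #(Tab β S Y x) ≤ bc (β + 1) := by
  refine le_trans (mk_le_of_injective (β := Σ l : Iio (la β),
    {f : A → X | (∀ a ∈ S l, f a ∈ Y) ∧ ∀ a ∉ S l, f a = x})
    (f := fun T => ⟨⟨T.1.1, T.2.1⟩, T.1.2, T.2.2⟩) ?_) ?_
  · rintro ⟨⟨l, f⟩, h⟩ ⟨⟨l', f'⟩, h'⟩ e
    obtain rfl : l = l' := congrArg (fun s => s.1.1) e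
    obtain rfl : f = f' := congrArg (fun s => s.2.1) e
    rfl
  · rw [mk_sigma]
    refine (sum_le_sum _ (fun _ => bc (β + 1)) fun l =>
      (mk_supp _ _ _).trans (pow_le_bc hY (hS _ l.2))).trans ?_
    rw [sum_const']
    exact mul_le_bc (mk_Iio_la β) le_rfl

theorem mk_pi_le {X : Type 1} {α : Ordinal.{0}} (hα : ¬ IsSuccLimit α) (Y : Ordinal.{0} → Set X)
    (hY : ∀ β < α, #(Y β) ≤ bc (β + 1)) : #{F : Iio α → X | ∀ β : Iio α, F β ∈ Y β.1} ≤ bc α := by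
  refine le_trans (mk_le_of_injective (β := ∀ β : Iio α, Y β.1) (f := fun F β => ⟨F.1 β, F.2 β⟩)
    fun F G e => Subtype.ext (funext fun β => congrArg Subtype.val (congrFun e β))) ?_
  rw [mk_pi]
  rcases zero_or_succ_or_isSuccLimit α with rfl | ⟨β, rfl⟩ | hl
  · have : IsEmpty (Iio (0 : Ordinal.{0})) := ⟨fun x => not_lt_zero (mem_Iio.1 x.2)⟩
    have := Fintype.ofIsEmpty (α := Iio (0 : Ordinal.{0}))
    rw [prod_eq_of_fintype]
    simp
  · refine (prod_le_prod _ (fun _ => bc (β + 1)) fun i => (hY _ i.2).trans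
      (bc_mono (add_one_le_of_lt i.2))).trans ?_
    rw [prod_const']
    refine pow_le_bc le_rfl (mk_Iio_le ((la_limit β).add_one_lt (lt_la.2 β.card_le_beth)))
  · exact (hα hl).elim

theorem few_of_code {X Y : Type 1} (r : X → X → Prop) (φ : X → Y) (h : ∀ a b, φ a = φ b → r a b)
    {S : Set Y} (hS : ∀ a, φ a ∈ S) : ∃ W : Set X, #W ≤ #S ∧ ∀ a, ∃ w ∈ W, r a w ∧ r w a := by
  choose ψ hψ using fun y : range φ => y.2
  refine ⟨range ψ, mk_range_le.trans (mk_le_mk_of_subset ?_), fun a =>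
    ⟨ψ ⟨φ a, a, rfl⟩, ⟨_, rfl⟩, h _ _ (hψ ⟨φ a, a, rfl⟩).symm, h _ _ (hψ ⟨φ a, a, rfl⟩)⟩⟩
  rintro _ ⟨a, rfl⟩
  exact hS a

/-- A splitting of a forcing at level `α`. -/
structure Lay (P : Type 1) [Preorder P] (α : Ordinal.{0}) : Type 1 where
  HL : P → P → Prop
  TL : P → P → Prop
  gl : P → P → P
  R : Ordinal.{0} → P → P → Prop
  le_iff : ∀ {p q}, p ≤ q ↔ HL p q ∧ TL p q
  HL_trans : ∀ {p q r}, HL p q → HL q r → HL p r
  TL_trans : ∀ {p q r}, TL p q → TL q r → TL p r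
  gl_h : ∀ h q, HL (gl h q) h ∧ HL h (gl h q)
  gl_t : ∀ h q, TL (gl h q) q ∧ TL q (gl h q)
  few : ∃ W : Set P, #W ≤ bc α ∧ ∀ p, ∃ w ∈ W, HL p w ∧ HL w p
  R_le : ∀ {ζ r p}, R ζ r p → r ≤ p
  R_trans : ∀ {ζ ζ' p q r}, ζ ≤ ζ' → R ζ q p → R ζ' r q → R ζ r p
  R_step : ∀ ζ < bo α, ∀ p q, q ≤ p → HL p q → ∃ r ≤ q, R ζ r p
  R_lim : ∀ ε ≤ bo α, IsSuccLimit ε → ∀ s : Ordinal.{0} → P,
    (∀ ζ ζ', ζ < ζ' → ζ' < ε → R ζ (s ζ') (s ζ)) → ∃ r, ∀ ζ < ε, R ζ r (s ζ)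

namespace Lay

variable {P Q : Type 1} [Preorder P] [Preorder Q] {α : Ordinal.{0}}

/-- Products of splittings. -/
def prod (L : Lay P α) (M : Lay Q α) : Lay (P × Q) α where
  HL p q := L.HL p.1 q.1 ∧ M.HL p.2 q.2
  TL p q := L.TL p.1 q.1 ∧ M.TL p.2 q.2
  gl p q := (L.gl p.1 q.1, M.gl p.2 q.2)
  R ζ p q := L.R ζ p.1 q.1 ∧ M.R ζ p.2 q.2
  le_iff := by
    intro p q
    rw [Prod.le_def, L.le_iff, M.le_iff]
    tauto
  HL_trans a b := ⟨L.HL_trans a.1 b.1, M.HL_trans a.2 b.2⟩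
  TL_trans a b := ⟨L.TL_trans a.1 b.1, M.TL_trans a.2 b.2⟩
  gl_h _ _ := ⟨⟨(L.gl_h _ _).1, (M.gl_h _ _).1⟩, (L.gl_h _ _).2, (M.gl_h _ _).2⟩
  gl_t _ _ := ⟨⟨(L.gl_t _ _).1, (M.gl_t _ _).1⟩, (L.gl_t _ _).2, (M.gl_t _ _).2⟩
  few := by
    obtain ⟨W, a, b⟩ := L.few
    obtain ⟨W', a', b'⟩ := M.few
    refine ⟨W ×ˢ W', ?_, fun p => ?_⟩
    · rw [mk_setProd]
      exact mul_le_bc a a'
    · obtain ⟨w, h1, h2⟩ := b p.1
      obtain ⟨w', h3, h4⟩ := b' p.2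
      exact ⟨(w, w'), ⟨h1, h3⟩, ⟨h2.1, h4.1⟩, h2.2, h4.2⟩
  R_le h := ⟨L.R_le h.1, M.R_le h.2⟩
  R_trans h a b := ⟨L.R_trans h a.1 b.1, M.R_trans h a.2 b.2⟩
  R_step ζ hζ p q h1 h2 := by
    obtain ⟨r, a, b⟩ := L.R_step ζ hζ p.1 q.1 h1.1 h2.1
    obtain ⟨r', a', b'⟩ := M.R_step ζ hζ p.2 q.2 h1.2 h2.2
    exact ⟨(r, r'), ⟨a, a'⟩, b, b'⟩
  R_lim ε h1 h2 s hs := by
    obtain ⟨r, a⟩ := L.R_lim ε h1 h2 (fun ζ => (s ζ).1) fun ζ ζ' a b => (hs ζ ζ' a b).1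
    obtain ⟨r', a'⟩ := M.R_lim ε h1 h2 (fun ζ => (s ζ).2) fun ζ ζ' a b => (hs ζ ζ' a b).2
    exact ⟨(r, r'), fun ζ h => ⟨a ζ h, a' ζ h⟩⟩

/-- The splitting with trivial tail of a small forcing. -/
def triv (h : ∃ W : Set P, #W ≤ bc α ∧ ∀ p, ∃ w ∈ W, p ≤ w ∧ w ≤ p) : Lay P α where
  HL p q := p ≤ q
  TL _ _ := True
  gl p _ := p
  R _ p q := p ≤ q ∧ q ≤ p
  le_iff := by simp
  HL_trans := le_trans
  TL_trans _ _ := trivial
  gl_h _ _ := ⟨le_rfl, le_rfl⟩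
  gl_t _ _ := ⟨trivial, trivial⟩
  few := h
  R_le h := h.1
  R_trans _ a b := ⟨b.1.trans a.1, a.2.trans b.2⟩
  R_step _ _ _ q h1 h2 := ⟨q, le_rfl, h1, h2⟩
  R_lim ε _ _ s hs := ⟨s 0, fun ζ h => by
    rcases (zero_le (a := ζ)).eq_or_lt with rfl | a
    · exact ⟨le_rfl, le_rfl⟩
    · exact (hs 0 ζ a h).symm⟩

variable (L : Lay P α)

theorem dist {I : Type 1} (hI : #I ≤ bc α) (D : I → Set P)
    (h1 : ∀ i p q, L.TL q p → p ∈ D i → q ∈ D i) (h2 : ∀ i p, ∃ q ≤ p, q ∈ D i) (p : P) :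
    ∃ q ≤ p, ∀ i, q ∈ D i := by
  classical
  rw [← mk_Iio_bo] at hI
  obtain ⟨φ⟩ := hI
  have step : ∀ ζ < bo α, ∀ p, ∃ r, (∀ i, (φ i).1 = ζ → r ∈ D i) ∧ L.R ζ r p := by
    intro ζ hζ p
    by_cases h : ∃ i, (φ i).1 = ζ
    · obtain ⟨i, hi⟩ := h
      obtain ⟨q, a, b⟩ := h2 i p
      obtain ⟨r, c, d⟩ := L.R_step ζ hζ p (L.gl p q) (L.le_iff.2 ⟨(L.gl_h _ _).1,
        L.TL_trans (L.gl_t _ _).1 (L.le_iff.1 a).2⟩) (L.gl_h _ _).2
      refine ⟨r, fun k hk => ?_, d⟩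
      obtain rfl : k = i := φ.injective (Subtype.ext (hk.trans hi.symm))
      exact h1 _ _ _ (L.TL_trans (L.le_iff.1 c).2 (L.gl_t _ _).1) b
    · obtain ⟨r, -, d⟩ := L.R_step ζ hζ p p le_rfl (L.le_iff.1 le_rfl).1
      exact ⟨r, fun i hi => (h ⟨i, hi⟩).elim, d⟩
  choose! nx hn1 hn2 using step
  let s : Ordinal.{0} → P := fun o => Ordinal.limitRecOn o p nx
    fun ε _ f => if h : ∃ r, ∀ ζ (hζ : ζ < ε), L.R ζ r (f ζ hζ) then h.choose else p
  have s0 : s 0 = p := Ordinal.limitRecOn_zero _ _ _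
  have s1 : ∀ ζ, s (ζ + 1) = nx ζ (s ζ) := fun ζ => Ordinal.limitRecOn_add_one _ _ _ _
  have key : ∀ ε ≤ bo α, ∀ ζ < ε, L.R ζ (s ε) (s ζ) := by
    intro ε
    induction ε using WellFoundedLT.induction with
    | _ ε ih =>
      intro hε
      rcases zero_or_succ_or_isSuccLimit ε with rfl | ⟨β, rfl⟩ | hl
      · exact fun ζ h => (not_lt_zero h).elim
      · intro ζ hζ
        have hβ : β < bo α := (lt_succ β).trans_le hε
        have := hn2 β hβ (s β)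
        rw [← s1] at this
        rcases (lt_succ_iff.1 hζ).eq_or_lt with rfl | a
        · exact this
        · exact L.R_trans a.le (ih β (lt_succ β) hβ.le ζ a) this
      · have h := L.R_lim ε hε hl s fun ζ ζ' a b => ih ζ' b (b.le.trans hε) ζ a
        have : s ε = h.choose := by
          simp only [s]
          rw [Ordinal.limitRecOn_limit _ _ _ _ hl, dif_pos h]
        rw [this]
        exact h.choose_spec
  refine ⟨s (bo α), s0 ▸ L.R_le (key _ le_rfl 0 (bo_limit α).bot_lt), fun i => ?_⟩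
  refine h1 i _ _ (L.le_iff.1 (L.R_le (key _ le_rfl _ ((bo_limit α).add_one_lt (φ i).2)))).2 ?_
  rw [s1]
  exact hn1 _ (φ i).2 _ i rfl

/-- A small set of representatives of the heads. -/
def W : Set P := L.few.choose

theorem W_card : #L.W ≤ bc α := L.few.choose_spec.1

theorem W_spec (p : P) : ∃ w ∈ L.W, L.HL p w ∧ L.HL w p := L.few.choose_spec.2 p

/-- `q` reduces the dense set `D` to the heads. -/
def Red (D : Set P) (q : P) : Prop :=
  ∀ h : L.W, ∃ h' : L.W, L.HL h' h ∧ ∃ w ∈ D, ∀ t, L.HL t h' → L.TL t q → t ≤ w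

theorem red_dense {I : Type 1} (hI : #I ≤ bc α) (D : I → Set P) (h2 : ∀ i p, ∃ q ≤ p, q ∈ D i)
    (p : P) : ∃ q ≤ p, ∀ i, L.Red (D i) q := by
  obtain ⟨q, hq, H⟩ := L.dist (I := I × L.W) (by
      simp only [mk_prod, Cardinal.lift_id]
      exact mul_le_bc hI L.W_card)
    (fun s => {q | ∃ h' : L.W, L.HL h' s.2 ∧ ∃ w ∈ D s.1, ∀ t, L.HL t h' → L.TL t q → t ≤ w})
    (fun s p q h ⟨h', a, w, b, c⟩ => ⟨h', a, w, b, fun t d e => c t d (L.TL_trans e h)⟩)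
    (fun s q => by
      obtain ⟨w, a, b⟩ := h2 s.1 (L.gl s.2 q)
      obtain ⟨h', c, d, e⟩ := L.W_spec w
      rw [L.le_iff] at a
      exact ⟨L.gl q w, L.le_iff.2 ⟨(L.gl_h _ _).1,
        L.TL_trans (L.gl_t _ _).1 (L.TL_trans a.2 (L.gl_t _ _).1)⟩, ⟨h', c⟩,
        L.HL_trans e (L.HL_trans a.1 (L.gl_h _ _).1), w, b,
        fun t f g => L.le_iff.2 ⟨L.HL_trans f e, L.TL_trans g (L.gl_t _ _).1⟩⟩) p
  exact ⟨q, hq, fun i h => H (i, h)⟩

theorem Red.use {D : Set P} {q : P} (h : L.Red D q) (r : P) :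
    ∃ h' : L.W, ∃ s ≤ r, L.HL s h' ∧ ∃ w ∈ D, ∀ t ≤ q, L.HL t h' → t ≤ w := by
  obtain ⟨k, a, -, b⟩ := L.W_spec r
  obtain ⟨h', c, w, d, e⟩ := h ⟨k, a⟩
  exact ⟨h', L.gl h' r, L.le_iff.2 ⟨L.HL_trans (L.gl_h _ _).1 (L.HL_trans c b), (L.gl_t _ _).1⟩,
    (L.gl_h _ _).1, w, d, fun t f g => e t g (L.le_iff.1 f).2⟩

end Lay

/-- The levels at which the forcing splits. -/
def Lev : Type 1 := {α : Ordinal.{0} // InK α ∧ ¬ IsSuccLimit α}

/-- A coherent family of splittings. -/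
structure Lays (P : Type 1) [Preorder P] : Type 1 where
  L : ∀ α : Lev, Lay P α.1
  mono : ∀ α β : Lev, α.1 ≤ β.1 → ∀ p q, (L α).TL p q → (L β).TL p q

theorem InK.split' {α : Ordinal.{0}} (h : InK α) {I : Type 1} (hI : #I ≤ bc α) :
    ∃ β : Lev, ∃ (κ : Type 1) (a : κ → Lev) (A : κ → Set I), β.1 ≤ α ∧ #κ ≤ bc β.1 ∧
      (∀ k, β.1 ≤ (a k).1 ∧ (a k).1 ≤ α ∧ #(A k) ≤ bc (a k).1) ∧ ∀ i, ∃ k, i ∈ A k := by
  by_cases hα : IsSuccLimit α
  · obtain ⟨β, h1, κ, a, A, h2, h3, h4⟩ := h.split hα hI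
    refine ⟨⟨β + 1, h.mono (add_one_le_of_lt h1), not_isSuccLimit_succ β⟩, κ,
      fun k => ⟨a k + 1, h.mono (add_one_le_of_lt (h3 k).2.1), not_isSuccLimit_succ _⟩, A,
      add_one_le_of_lt h1, h2.trans (bc_mono (lt_add_one β).le), fun k => ⟨?_,
        add_one_le_of_lt (h3 k).2.1, (h3 k).2.2.trans (bc_mono (lt_add_one _).le)⟩, h4⟩
    exact add_le_add_left (h3 k).1 1
  · exact ⟨⟨α, h, hα⟩, PUnit, fun _ => ⟨α, h, hα⟩, fun _ => univ, le_rfl,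
      by simpa using one_le_aleph0.trans (aleph0_le_bc α),
      fun _ => ⟨le_rfl, le_rfl, by simpa using hI⟩, fun _ => ⟨⟨⟩, trivial⟩⟩

namespace Lays

variable {P : Type 1} [Preorder P] (M : Lays P)

theorem dist {α : Ordinal.{0}} (hα : InK α) {I : Type 1} (hI : #I ≤ bc α) (D : I → Set P)
    (h1 : ∀ β : Lev, β.1 ≤ α → ∀ i p q, (M.L β).TL q p → p ∈ D i → q ∈ D i)
    (h2 : ∀ i p, ∃ q ≤ p, q ∈ D i) (p : P) : ∃ q ≤ p, ∀ i, q ∈ D i := by
  obtain ⟨β, κ, a, A, b1, b2, b3, b4⟩ := hα.split' hI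
  obtain ⟨q, hq, H⟩ := (M.L β).dist b2 (fun k => {q | ∀ i : A k, q ∈ D i})
    (fun k p q h hp i => h1 β b1 i p q h (hp i))
    (fun k => (M.L (a k)).dist (b3 k).2.2 _ (fun i => h1 (a k) (b3 k).2.1 i) fun i => h2 i) p
  exact ⟨q, hq, fun i => let ⟨k, hk⟩ := b4 i; H k ⟨i, hk⟩⟩

/-- Heads of level at most `α`. -/
def J (α : Ordinal.{0}) : Type 1 := Σ β : {β : Lev // β.1 ≤ α}, (M.L β.1).W

/-- Conditions that extend a given head. -/
def Uo (α : Ordinal.{0}) (h : M.J α) : Set P := {s | (M.L h.1.1).HL s h.2}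

theorem cardJ (α : Ordinal.{0}) : #(M.J α) ≤ bc α := by
  rw [J, mk_sigma]
  have : ∀ β : {β : Lev // β.1 ≤ α}, #((M.L β.1).W) ≤ bc α :=
    fun β => (M.L β.1).W_card.trans (bc_mono β.2)
  refine (sum_le_sum _ (fun _ => bc α) this).trans ?_
  rw [sum_const']
  refine mul_le_bc (le_trans ?_ (mk_Iio_le ((la_limit α).add_one_lt (lt_la.2 α.card_le_beth))))
    le_rfl
  refine mk_le_of_injective (α := {β : Lev // β.1 ≤ α}) (β := Iio (α + 1))
    (f := fun β => ⟨β.1.1, lt_add_one_iff.2 β.2⟩) fun a b e => ?_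
  exact Subtype.ext (Subtype.ext (congrArg Subtype.val e :))

theorem lower (α : Ordinal.{0}) (h : M.J α) {p q : P} (a : q ≤ p) (b : p ∈ M.Uo α h) :
    q ∈ M.Uo α h := (M.L _).HL_trans ((M.L _).le_iff.1 a).1 b

theorem red (α : Ordinal.{0}) (hα : InK α) (I : Type 1) (hI : #I ≤ bc α) (D : I → Set P)
    (h2 : ∀ i p, ∃ q ≤ p, q ∈ D i) (p : P) : ∃ q ≤ p, ∀ i,
    ∀ r ≤ q, ∃ h, ∃ s ≤ r, s ∈ M.Uo α h ∧ ∃ w ∈ D i, ∀ t ≤ q, t ∈ M.Uo α h → t ≤ w := by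
  obtain ⟨β, κ, a, A, -, b2, b3, b4⟩ := hα.split' hI
  obtain ⟨q, hq, H⟩ := (M.L β).dist b2 (fun k => {q | ∀ i : A k, (M.L (a k)).Red (D i) q})
    (fun k p q h hp i x => let ⟨h', c, w, d, e⟩ := hp i x
      ⟨h', c, w, d, fun t f g => e t f ((M.L _).TL_trans g (M.mono _ _ (b3 k).1 _ _ h))⟩)
    (fun k => (M.L (a k)).red_dense (b3 k).2.2 _ fun i => h2 i) p
  refine ⟨q, hq, fun i r _ => ?_⟩
  obtain ⟨k, hk⟩ := b4 i
  obtain ⟨h', c⟩ := (H k ⟨i, hk⟩).use _ r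
  exact ⟨⟨⟨a k, (b3 k).2.1⟩, h'⟩, c⟩

end Lays

end Pool.Agent.MP_7b2404_lc

end

-- part MP_7b2404_lc.Loc
section

/-!
Local data at a countable level `j`: labels and functions with small sublevel sets.
-/

namespace Pool.Agent.MP_7b2404_lc

open Cardinal Ordinal Set Order Filter

/-- Labels. -/
abbrev G : Type 1 := Ordinal.{0} →₀ ℤ

/-- Labels supported in `S`. -/
abbrev Gs (S : Set Ordinal.{0}) : Submodule ℤ G := Finsupp.supported ℤ ℤ S

theorem mk_Gs {S : Set Ordinal.{0}} {α : Ordinal.{0}} (h : S.Nonempty) (hS : #S ≤ bc α) :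
    #(Gs S) ≤ bc α := by
  have := h.to_subtype
  have e := Cardinal.mk_congr (Finsupp.supportedEquivFinsupp (M := ℤ) (R := ℤ) S).toEquiv
  rw [e, mk_finsupp_lift_of_infinite']
  exact max_le (by simpa only [Cardinal.lift_uzero] using hS) (by simpa using aleph0_le_bc α)

theorem Gs_of_add {u δ : G} {S : Set Ordinal.{0}} (hu : 0 ≤ u) (hδ : 0 ≤ δ) (h : u + δ ∈ Gs S) :
    u ∈ Gs S ∧ δ ∈ Gs S := by
  simp only [Finsupp.mem_supported'] at *
  refine ⟨fun a ha => ?_, fun a ha => ?_⟩ <;>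
  · have h1 := h a ha
    have h2 := hu a
    have h3 := hδ a
    simp only [Finsupp.coe_add, Pi.add_apply, Finsupp.coe_zero, Pi.zero_apply] at h1 h2 h3
    omega

theorem omega1_limit' : IsSuccLimit (ω₁ : Ordinal.{0}) := la_zero ▸ la_limit 0

/-- The filter of tails of `ω₁`. -/
def F1 : Filter Ordinal.{0} where
  sets := {s | ∃ k < ω₁, ∀ j, k ≤ j → j < ω₁ → j ∈ s}
  univ_sets := ⟨0, omega1_limit'.bot_lt, fun _ _ _ => trivial⟩
  sets_of_superset := fun ⟨k, a, b⟩ h => ⟨k, a, fun j c d => h (b j c d)⟩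
  inter_sets := fun ⟨k, a, b⟩ ⟨l, c, d⟩ => ⟨max k l, max_lt a c, fun j e f =>
    ⟨b j (le_of_max_le_left e) f, d j (le_of_max_le_right e) f⟩⟩

theorem ev_iff {Q : Ordinal.{0} → Prop} :
    (∀ᶠ j in F1, Q j) ↔ ∃ k < ω₁, ∀ j, k ≤ j → j < ω₁ → Q j := Iff.rfl

theorem ev_lt : ∀ᶠ j in F1, j < ω₁ := ⟨0, omega1_limit'.bot_lt, fun _ _ h => h⟩

theorem ev_ge {k : Ordinal.{0}} (h : k < ω₁) : ∀ᶠ j in F1, k ≤ j := ⟨k, h, fun _ h _ => h⟩

instance : F1.NeBot := ⟨fun h => by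
  have : ∀ᶠ _ in F1, False := by rw [h]; exact eventually_bot
  obtain ⟨k, a, b⟩ := this
  exact b k le_rfl a⟩

theorem bdd_omega1 {ι : Type} [Countable ι] (a : ι → Ordinal.{0}) (h : ∀ i, a i < ω₁) :
    ∃ b < ω₁, ∀ i, a i ≤ b :=
  ⟨⨆ i, a i, Ordinal.iSup_lt_omega_one h, Ordinal.le_iSup a⟩

/-- The size allowed for the sublevel set of `ν`. -/
noncomputable def sz (ν : Ordinal.{0}) : Cardinal.{1} := Cardinal.lift.{1} (ν.card + ℵ₀)

theorem aleph0_le_sz (ν : Ordinal.{0}) : ℵ₀ ≤ sz ν := aleph0_le_lift.2 (self_le_add_left _ _)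

theorem mk_Iio_le_sz {ε ν : Ordinal.{0}} (h : ε ≤ ν + 1) : #(Iio ε) ≤ sz ν := by
  rw [mk_Iio]
  refine Cardinal.lift_le.2 ((card_le_card h).trans ?_)
  simpa using add_le_add_right one_le_aleph0 ν.card

theorem mk_union3 {X : Type 1} {A B S : Set X} {x : X} {c : Cardinal.{1}} (hc : ℵ₀ ≤ c)
    (h : S ⊆ A ∪ B ∪ {x}) (hA : #A ≤ c) (hB : #B ≤ c) : #S ≤ c := by
  refine (mk_le_mk_of_subset h).trans ((mk_union_le _ _).trans
    (add_le_of_le hc ((mk_union_le _ _).trans (add_le_of_le hc hA hB)) ?_))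
  simpa using one_le_aleph0.trans hc

theorem mk_iUnion_le' {X : Type 1} {ε : Ordinal.{0}} {A : Ordinal.{0} → Set X} {S : Set X}
    {c : Cardinal.{1}} (hc : ℵ₀ ≤ c) (h : ∀ x ∈ S, ∃ ζ < ε, x ∈ A ζ) (hε : #(Iio ε) ≤ c)
    (hA : ∀ ζ < ε, #(A ζ) ≤ c) : #S ≤ c := by
  have : S ⊆ ⋃ ζ : Iio ε, A ζ := fun x hx => let ⟨ζ, a, b⟩ := h x hx; mem_iUnion.2 ⟨⟨ζ, a⟩, b⟩
  refine (mk_le_mk_of_subset this).trans (mk_iUnion_le_sum_mk.trans
    ((sum_le_sum _ (fun _ => c) fun ζ => hA _ ζ.2).trans ?_))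
  rw [sum_const']
  exact (mul_le_mul' hε le_rfl).trans (mul_eq_self hc).le

/-- The requirements on one row of local data. -/
structure Row (j η : Ordinal.{0}) (e : Ordinal.{0} → G) (ρ : Ordinal.{0} → Ordinal.{0}) :
    Prop where
  pos : ∀ z < η, 0 ≤ e z
  supp : ∀ z < η, e z ∈ Gs (Iic j)
  lt : ∀ z < η, ρ z < bo j
  few : ∀ ν, #{z | z < η ∧ ρ z ≤ ν} ≤ sz ν

theorem Row.congr {j η : Ordinal.{0}} {e e' : Ordinal.{0} → G} {ρ ρ' : Ordinal.{0} → Ordinal.{0}}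
    (h : Row j η e ρ) (h' : ∀ z < η, e' z = e z ∧ ρ' z = ρ z) : Row j η e' ρ' :=
  ⟨fun z a => (h' z a).1 ▸ h.pos z a, fun z a => (h' z a).1 ▸ h.supp z a,
    fun z a => (h' z a).2 ▸ h.lt z a, fun ν => le_trans (mk_le_mk_of_subset fun z hz =>
      And.intro hz.1 ((h' z hz.1).2.ge.trans hz.2)) (h.few ν)⟩

/-- Two labellings differ by an eventually constant amount along increasing sequences. -/
def LC (η : Ordinal.{0}) (e e' : Ordinal.{0} → G) : Prop :=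
  ∀ a : ℕ → Ordinal.{0}, StrictMono a → (∀ n, a n < η) → ∃ d, ∀ᶠ n in atTop, e' (a n) = e (a n) + d

theorem LC.refl (η : Ordinal.{0}) (e : Ordinal.{0} → G) : LC η e e :=
  fun _ _ _ => ⟨0, Eventually.of_forall fun _ => by simp⟩

theorem LC.symm {η : Ordinal.{0}} {e e' : Ordinal.{0} → G} (h : LC η e e') : LC η e' e :=
  fun a h1 h2 => let ⟨d, hd⟩ := h a h1 h2
    ⟨-d, hd.mono fun n hn => by rw [hn]; simp⟩

theorem LC.congr {η η' : Ordinal.{0}} {e e' k k' : Ordinal.{0} → G} (h : LC η e e') (h0 : η' ≤ η)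
    (h1 : ∀ z < η', k z = e z) (h2 : ∀ z < η', k' z = e' z) : LC η' k k' :=
  fun a a1 a2 => (h a a1 fun n => (a2 n).trans_le h0).imp fun d hd => hd.mono fun n hn => by
    rw [h1 _ (a2 n), h2 _ (a2 n), hn]

/-- Local data at level `j` with top `θ`. -/
structure Loc (j θ : Ordinal.{0}) (e : Ordinal.{0} → Ordinal.{0} → G)
    (ρ : Ordinal.{0} → Ordinal.{0} → Ordinal.{0}) : Prop where
  lt : θ < la j
  row : ∀ η ≤ θ, Row j η (e η) (ρ η)
  lc : ∀ η ≤ θ, ∀ η' ≤ θ, LC (min η η') (e η) (e η')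

/-- Adding a new top row. -/
theorem Loc.top {j θ : Ordinal.{0}} {e : Ordinal.{0} → Ordinal.{0} → G}
    {ρ : Ordinal.{0} → Ordinal.{0} → Ordinal.{0}} (h0 : θ < la j)
    (h1 : ∀ η ≤ θ, Row j η (e η) (ρ η)) (h2 : ∀ η < θ, ∀ η' < θ, LC (min η η') (e η) (e η'))
    (h3 : ∀ η < θ, LC η (e η) (e θ)) : Loc j θ e ρ := by
  refine ⟨h0, h1, fun η a η' b => ?_⟩
  rcases a.lt_or_eq with a | rfl <;> rcases b.lt_or_eq with b | rfl
  · exact h2 _ a _ b
  · rw [min_eq_left a.le]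
    exact h3 _ a
  · rw [min_eq_right b.le]
    exact (h3 _ b).symm
  · exact LC.refl _ _

open Classical in
/-- The new top row after a move of the opponent. -/
noncomputable def stepF {X : Type 1} (t θ : Ordinal.{0}) (e : Ordinal.{0} → Ordinal.{0} → X)
    (op : X → X) (x : X) (η z : Ordinal.{0}) : X :=
  if η ≤ θ then e η z else if z < t then e t z else if z < θ then op (e θ z) else x

section

variable {X : Type 1} {t θ : Ordinal.{0}} {e : Ordinal.{0} → Ordinal.{0} → X} {op : X → X} {x : X}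

theorem stepF_old {η : Ordinal.{0}} (h : η ≤ θ) : stepF t θ e op x η = e η :=
  funext fun _ => if_pos h

theorem stepF_low {z : Ordinal.{0}} (h : z < t) : stepF t θ e op x (θ + 1) z = e t z := by
  simp [stepF, h]

theorem stepF_mid {z : Ordinal.{0}} (h : t ≤ z) (h' : z < θ) :
    stepF t θ e op x (θ + 1) z = op (e θ z) := by
  simp [stepF, h.not_gt, h']

theorem stepF_top (h : t ≤ θ) : stepF t θ e op x (θ + 1) θ = x := by
  simp [stepF, h.not_gt]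

theorem step_cases (t θ z : Ordinal.{0}) (h : z < θ + 1) : z < t ∨ (t ≤ z ∧ z < θ) ∨ z = θ := by
  rcases lt_or_ge z t with a | a
  · exact Or.inl a
  · exact Or.inr ((lt_add_one_iff.1 h).lt_or_eq.imp_left fun b => ⟨a, b⟩)

end

theorem Loc.step {j θ t ζ : Ordinal.{0}} {e : Ordinal.{0} → Ordinal.{0} → G}
    {ρ : Ordinal.{0} → Ordinal.{0} → Ordinal.{0}} (h : Loc j θ e ρ) (ht : t ≤ θ) {δ : G}
    (h1 : 0 ≤ δ) (h2 : δ ∈ Gs (Iic j)) (h3 : ζ < bo j) :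
    Loc j (θ + 1) (stepF t θ e (· + δ) δ) (stepF t θ ρ (max · ζ) ζ) := by
  refine Loc.top ((la_limit j).add_one_lt h.lt) (fun η a => ?_) (fun η a η' b => ?_) fun η a => ?_
  · rcases a.lt_or_eq with a | rfl
    · rw [stepF_old (lt_add_one_iff.1 a), stepF_old (lt_add_one_iff.1 a)]
      exact h.row _ (lt_add_one_iff.1 a)
    · have r1 := h.row t ht
      have r2 := h.row θ le_rfl
      refine ⟨fun z b => ?_, fun z b => ?_, fun z b => ?_, fun ν => ?_⟩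
      · rcases step_cases t θ z b with c | c | rfl
        · exact stepF_low c ▸ r1.pos z c
        · exact stepF_mid c.1 c.2 ▸ add_nonneg (r2.pos z c.2) h1
        · exact stepF_top ht ▸ h1
      · rcases step_cases t θ z b with c | c | rfl
        · exact stepF_low c ▸ r1.supp z c
        · exact stepF_mid c.1 c.2 ▸ add_mem (r2.supp z c.2) h2
        · exact stepF_top ht ▸ h2
      · rcases step_cases t θ z b with c | c | rfl
        · exact stepF_low c ▸ r1.lt z c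
        · exact stepF_mid c.1 c.2 ▸ max_lt (r2.lt z c.2) h3
        · exact stepF_top ht ▸ h3
      · refine mk_union3 (x := θ) (aleph0_le_sz ν) (fun z hz => ?_) (r1.few ν) (r2.few ν)
        rcases step_cases t θ z hz.1 with c | c | rfl
        · exact Or.inl (Or.inl ⟨c, (stepF_low c).ge.trans hz.2⟩)
        · exact Or.inl (Or.inr ⟨c.2, le_of_max_le_left (stepF_mid c.1 c.2 ▸ hz.2 :)⟩)
        · exact Or.inr rfl
  · rw [stepF_old (lt_add_one_iff.1 a), stepF_old (lt_add_one_iff.1 b)]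
    exact h.lc _ (lt_add_one_iff.1 a) _ (lt_add_one_iff.1 b)
  · have a := lt_add_one_iff.1 a
    rw [stepF_old a]
    intro s s1 s2
    by_cases c : ∀ n, s n < t
    · refine (h.lc η a t ht s s1 fun n => lt_min (s2 n) (c n)).imp fun d hd => ?_
      exact hd.mono fun n hn => by rw [stepF_low (c n), hn]
    · push Not at c
      obtain ⟨m, hm⟩ := c
      obtain ⟨d, hd⟩ := h.lc η a θ le_rfl s s1 fun n => lt_min (s2 n) ((s2 n).trans_le a)
      refine ⟨d + δ, ?_⟩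
      filter_upwards [hd, eventually_ge_atTop m] with n h1 h2
      rw [stepF_mid (hm.trans (s1.monotone h2)) ((s2 n).trans_le a), h1, add_assoc]

theorem Loc.lim {j θ ε : Ordinal.{0}} {e : Ordinal.{0} → Ordinal.{0} → G}
    {ρ : Ordinal.{0} → Ordinal.{0} → Ordinal.{0}} (h0 : θ < la j) (t : Ordinal.{0} → Ordinal.{0})
    (E : Ordinal.{0} → Ordinal.{0} → Ordinal.{0} → G)
    (R : Ordinal.{0} → Ordinal.{0} → Ordinal.{0} → Ordinal.{0})
    (h : ∀ ζ < ε, Loc j (t ζ) (E ζ) (R ζ))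
    (h1 : ∀ η < θ, ∃ ζ < ε, η < t ζ)
    (h2 : ∀ ζ < ε, ∀ η < θ, η ≤ t ζ → ∀ z < η, e η z = E ζ η z ∧ ρ η z = R ζ η z)
    (h3 : ∀ ζ < ε, ∀ z < t ζ, e θ z = E ζ (t ζ) z ∧ ρ θ z = R ζ (t ζ) z)
    (h4 : ∀ ζ < ε, ∀ z < θ, t ζ ≤ z → ζ ≤ ρ θ z) : Loc j θ e ρ := by
  refine Loc.top h0 (fun η a => ?_) (fun η a η' b => ?_) fun η a => ?_
  · rcases a.lt_or_eq with a | rfl
    · obtain ⟨ζ, b, c⟩ := h1 η a
      exact ((h ζ b).row η c.le).congr (h2 ζ b η a c.le)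
    · refine ⟨fun z b => ?_, fun z b => ?_, fun z b => ?_, fun ν => ?_⟩
      · obtain ⟨ζ, c, d⟩ := h1 z b
        exact (h3 ζ c z d).1 ▸ ((h ζ c).row _ le_rfl).pos z d
      · obtain ⟨ζ, c, d⟩ := h1 z b
        exact (h3 ζ c z d).1 ▸ ((h ζ c).row _ le_rfl).supp z d
      · obtain ⟨ζ, c, d⟩ := h1 z b
        exact (h3 ζ c z d).2 ▸ ((h ζ c).row _ le_rfl).lt z d
      · rcases lt_or_ge (ν + 1) ε with c | c
        · refine (mk_le_mk_of_subset fun z hz => ?_).trans (((h _ c).row _ le_rfl).few ν)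
          have : z < t (ν + 1) := lt_of_not_ge fun d =>
            ((h4 _ c z hz.1 d).trans hz.2).not_gt (lt_add_one ν)
          exact ⟨this, (h3 _ c z this).2 ▸ hz.2⟩
        · refine mk_iUnion_le' (aleph0_le_sz ν) (fun z hz => ?_) (mk_Iio_le_sz c)
            fun ζ d => ((h ζ d).row _ le_rfl).few ν
          obtain ⟨ζ, c, d⟩ := h1 z hz.1
          exact ⟨ζ, c, d, (h3 ζ c z d).2 ▸ hz.2⟩
  · obtain ⟨ζ, c, d⟩ := h1 _ (max_lt a b)
    have d1 := (le_max_left η η').trans d.le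
    have d2 := (le_max_right η η').trans d.le
    exact ((h ζ c).lc η d1 η' d2).congr le_rfl
      (fun z hz => (h2 ζ c η a d1 z (hz.trans_le (min_le_left _ _))).1)
      fun z hz => (h2 ζ c η' b d2 z (hz.trans_le (min_le_right _ _))).1
  · obtain ⟨ζ, c, d⟩ := h1 η a
    exact ((h ζ c).lc η d.le _ le_rfl).congr (le_min le_rfl d.le)
      (fun z hz => (h2 ζ c η a d.le z hz).1) fun z hz => (h3 ζ c z (hz.trans d)).1

/-- Two functions agree below `η` above the value `ℶ_ξ`. -/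
def Coh (ξ η : Ordinal.{0}) (ρ ρ' : Ordinal.{0} → Ordinal.{0}) : Prop :=
  ∀ z < η, max (ρ z) (bo ξ) = max (ρ' z) (bo ξ)

theorem Coh.mono {ξ ξ' η η' : Ordinal.{0}} {ρ ρ' : Ordinal.{0} → Ordinal.{0}} (h : Coh ξ η ρ ρ')
    (h1 : ξ ≤ ξ') (h2 : η' ≤ η) : Coh ξ' η' ρ ρ' := fun z hz => by
  rw [← max_eq_right (bo_mono h1), ← max_assoc, ← max_assoc, h z (hz.trans_le h2)]

theorem Coh.trans {ξ η : Ordinal.{0}} {ρ ρ' ρ'' : Ordinal.{0} → Ordinal.{0}} (h : Coh ξ η ρ ρ')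
    (h' : Coh ξ η ρ' ρ'') : Coh ξ η ρ ρ'' := fun z hz => (h z hz).trans (h' z hz)

end Pool.Agent.MP_7b2404_lc

end

-- part MP_7b2404_lc.Sq
section

/-!
The forcing that adds local labellings together with a coherent scale of length `ℶ_{ω₁}⁺`.
-/

namespace Pool.Agent.MP_7b2404_lc

open Cardinal Ordinal Set Order Filter

/-- The link between `β < β'` and the local data. -/
def G1 (e : Ordinal.{0} → Ordinal.{0} → Ordinal.{0} → G)
    (ρ : Ordinal.{0} → Ordinal.{0} → Ordinal.{0} → Ordinal.{0})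
    (f : Ordinal.{0} → Ordinal.{0} → Ordinal.{0}) (E : Ordinal.{0} → Ordinal.{0} → G)
    (β β' : Ordinal.{0}) : Prop :=
  ∃ ξ < ω₁, ∀ᶠ j in F1, f β j < f β' j ∧ e j (f β' j) (f β j) = E β' β ∧
    Coh ξ (f β j) (ρ j (f β j)) (ρ j (f β' j))

/-- Conditions. -/
structure SS : Type 1 where
  θ : Ordinal.{0} → Ordinal.{0}
  e : Ordinal.{0} → Ordinal.{0} → Ordinal.{0} → G
  ρ : Ordinal.{0} → Ordinal.{0} → Ordinal.{0} → Ordinal.{0}
  γ : Ordinal.{0}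
  f : Ordinal.{0} → Ordinal.{0} → Ordinal.{0}
  E : Ordinal.{0} → Ordinal.{0} → G
  loc : ∀ j < ω₁, Loc j (θ j) (e j) (ρ j)
  γ_lt : γ < la ω₁
  f_lt : ∀ β ≤ γ, ∀ j < ω₁, f β j < la j
  al : ∀ᶠ j in F1, f γ j = θ j
  g1 : ∀ β β', β < β' → β' ≤ γ → G1 e ρ f E β β'
  g2 : ∀ β ≤ γ, ∀ ξ < ω₁, #{b | b < β ∧ E β b ∈ Gs (Iic ξ)} ≤ bc ξ

namespace SS

/-- `p` extends `q` at level `j`. -/
def LExt (p q : SS) (j : Ordinal.{0}) : Prop :=
  q.θ j ≤ p.θ j ∧ ∀ η ≤ q.θ j, ∀ z < η, p.e j η z = q.e j η z ∧ p.ρ j η z = q.ρ j η z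

/-- The scale of `p` extends that of `q`. -/
def GExt (p q : SS) : Prop :=
  q.γ ≤ p.γ ∧ ∀ β ≤ q.γ, (∀ j < ω₁, p.f β j = q.f β j) ∧ ∀ b < β, p.E β b = q.E β b

theorem LExt.refl (p : SS) (j : Ordinal.{0}) : LExt p p j := ⟨le_rfl, fun _ _ _ _ => ⟨rfl, rfl⟩⟩

theorem LExt.trans {p q r : SS} {j : Ordinal.{0}} (a : LExt p q j) (b : LExt q r j) : LExt p r j :=
  ⟨b.1.trans a.1, fun η h z hz => ⟨(a.2 η (h.trans b.1) z hz).1.trans (b.2 η h z hz).1,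
    (a.2 η (h.trans b.1) z hz).2.trans (b.2 η h z hz).2⟩⟩

theorem GExt.refl (p : SS) : GExt p p := ⟨le_rfl, fun _ _ => ⟨fun _ _ => rfl, fun _ _ => rfl⟩⟩

theorem GExt.trans {p q r : SS} (a : GExt p q) (b : GExt q r) : GExt p r :=
  ⟨b.1.trans a.1, fun β h => ⟨fun j hj => ((a.2 β (h.trans b.1)).1 j hj).trans ((b.2 β h).1 j hj),
    fun c hc => ((a.2 β (h.trans b.1)).2 c hc).trans ((b.2 β h).2 c hc)⟩⟩

instance : Preorder SS where
  le p q := (∀ j < ω₁, LExt p q j) ∧ GExt p q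
  le_refl p := ⟨fun j _ => LExt.refl p j, GExt.refl p⟩
  le_trans _ _ _ a b := ⟨fun j h => (a.1 j h).trans (b.1 j h), a.2.trans b.2⟩

/-- The trivial condition. -/
def one : SS where
  θ _ := 0
  e _ _ _ := 0
  ρ _ _ _ := 0
  γ := 0
  f _ _ := 0
  E _ _ := 0
  loc j _ := ⟨(la_limit j).bot_lt, fun η h => by
    obtain rfl := le_zero_iff.1 h
    exact ⟨by simp, by simp, by simp, by simp⟩, fun _ _ _ _ => LC.refl _ _⟩
  γ_lt := (la_limit _).bot_lt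
  f_lt _ _ j _ := (la_limit j).bot_lt
  al := Eventually.of_forall fun _ => rfl
  g1 _ _ a b := (not_lt_zero (a.trans_le b)).elim
  g2 β h := by
    obtain rfl := le_zero_iff.1 h
    simp

variable (p : SS)

theorem coh_le {β β' : Ordinal.{0}} (a : β ≤ β') (b : β' ≤ p.γ) : ∃ ξ < ω₁, ∀ᶠ j in F1,
    p.f β j ≤ p.f β' j ∧ Coh ξ (p.f β j) (p.ρ j (p.f β j)) (p.ρ j (p.f β' j)) := by
  rcases a.lt_or_eq with a | rfl
  · exact (p.g1 β β' a b).imp fun ξ h => ⟨h.1, h.2.mono fun j hj => ⟨hj.1.le, hj.2.2⟩⟩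
  · exact ⟨0, omega1_limit'.bot_lt, Eventually.of_forall fun _ => ⟨le_rfl, fun _ _ => rfl⟩⟩

theorem f_le {β : Ordinal.{0}} (a : β ≤ p.γ) : ∀ᶠ j in F1, p.f β j ≤ p.θ j := by
  obtain ⟨ξ, -, h⟩ := p.coh_le a le_rfl
  filter_upwards [h, p.al] with j h1 h2 using h2 ▸ h1.1

theorem E_spec {b β : Ordinal.{0}} (a : b < β) (h : β ≤ p.γ) :
    0 ≤ p.E β b ∧ p.E β b ∈ Gs (Iio ω₁) := by
  obtain ⟨ξ, -, h1⟩ := p.g1 b β a h
  obtain ⟨j, h2, h3, h4⟩ := (h1.and ((p.f_le h).and ev_lt)).exists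
  have := (p.loc j h4).row _ h3
  rw [← h2.2.1]
  exact ⟨this.pos _ h2.1, Finsupp.supported_mono (fun x hx => lt_of_le_of_lt hx h4)
    (this.supp _ h2.1)⟩

theorem g1_of {e : Ordinal.{0} → Ordinal.{0} → Ordinal.{0} → G}
    {ρ : Ordinal.{0} → Ordinal.{0} → Ordinal.{0} → Ordinal.{0}}
    {f : Ordinal.{0} → Ordinal.{0} → Ordinal.{0}} {E : Ordinal.{0} → Ordinal.{0} → G}
    (h1 : ∀ᶠ j in F1, ∀ η ≤ p.θ j, ∀ z < η, e j η z = p.e j η z ∧ ρ j η z = p.ρ j η z)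
    (h2 : ∀ β ≤ p.γ, (∀ j < ω₁, f β j = p.f β j) ∧ ∀ b < β, E β b = p.E β b)
    {β β' : Ordinal.{0}} (a : β < β') (b : β' ≤ p.γ) : G1 e ρ f E β β' := by
  obtain ⟨ξ, c, d⟩ := p.g1 β β' a b
  refine ⟨ξ, c, ?_⟩
  filter_upwards [d, h1, p.f_le b, ev_lt] with j d h1 h3 h4
  rw [(h2 β (a.le.trans b)).1 j h4, (h2 β' b).1 j h4, (h2 β' b).2 β a, (h1 _ h3 _ d.1).1]
  refine ⟨d.1, d.2.1, fun z hz => ?_⟩
  rw [(h1 _ h3 _ (hz.trans d.1)).2, (h1 _ (d.1.le.trans h3) _ hz).2, d.2.2 z hz]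

theorem g2_of {E : Ordinal.{0} → G} {β ξ : Ordinal.{0}} (h : β ≤ p.γ) (hξ : ξ < ω₁)
    (h2 : ∀ b < β, E b = p.E β b) : #{b | b < β ∧ E b ∈ Gs (Iic ξ)} ≤ bc ξ :=
  le_trans (mk_le_mk_of_subset fun b hb => And.intro hb.1 (h2 b hb.1 ▸ hb.2)) (p.g2 β h ξ hξ)

open Classical in
/-- Levels below `α` from `p`, everything else from `q`. -/
noncomputable def gl (α : Ordinal.{0}) (hα : α < ω₁) (p q : SS) : SS where
  θ j := if j < α then p.θ j else q.θ j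
  e j := if j < α then p.e j else q.e j
  ρ j := if j < α then p.ρ j else q.ρ j
  γ := q.γ
  f := q.f
  E := q.E
  loc j h := by split_ifs <;> exact loc _ j h
  γ_lt := q.γ_lt
  f_lt := q.f_lt
  al := by
    filter_upwards [q.al, ev_ge hα] with j a b
    rwa [if_neg b.not_gt]
  g1 _ _ := q.g1_of ((ev_ge hα).mono fun j b => by simp [b.not_gt]) (GExt.refl q).2
  g2 := q.g2

/-- The strong extension relation used by the strategy. -/
structure R (α ζ : Ordinal.{0}) (r p : SS) : Prop where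
  le : r ≤ p
  hd : ∀ j < α, LExt p r j
  lt : ∀ j, α ≤ j → j < ω₁ → p.θ j < r.θ j
  top : ∀ j, α ≤ j → j < ω₁ → ∀ z < p.θ j,
    r.e j (r.θ j) z = p.e j (p.θ j) z ∧ r.ρ j (r.θ j) z = p.ρ j (p.θ j) z
  big : ∀ j, α ≤ j → j < ω₁ → ∀ z < r.θ j, p.θ j ≤ z → ζ ≤ r.ρ j (r.θ j) z
  glt : p.γ < r.γ
  gtop : ∀ β < p.γ, r.E r.γ β = p.E p.γ β
  gbig : ∀ β < r.γ, p.γ ≤ β → ∀ ξ < α, r.E r.γ β ∉ Gs (Iic ξ)

theorem R.trans {α ζ ζ' : Ordinal.{0}} {p q r : SS} (h : ζ ≤ ζ') (a : R α ζ q p) (b : R α ζ' r q) :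
    R α ζ r p where
  le := b.le.trans a.le
  hd j c := (a.hd j c).trans (b.hd j c)
  lt j c d := (a.lt j c d).trans (b.lt j c d)
  top j c d z e := ⟨(b.top j c d z (e.trans (a.lt j c d))).1.trans (a.top j c d z e).1,
    (b.top j c d z (e.trans (a.lt j c d))).2.trans (a.top j c d z e).2⟩
  big j c d z e f := by
    rcases lt_or_ge z (q.θ j) with g | g
    · exact (b.top j c d z g).2 ▸ a.big j c d z g f
    · exact h.trans (b.big j c d z e g)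
  glt := a.glt.trans b.glt
  gtop β c := (b.gtop β (c.trans a.glt)).trans (a.gtop β c)
  gbig β c d := by
    rcases lt_or_ge β q.γ with g | g
    · exact b.gtop β g ▸ a.gbig β g d
    · exact b.gbig β c g

open Classical in
theorem step {α ζ : Ordinal.{0}} (hα : α < ω₁) (hζ : ζ < bo α) (p q : SS) (h : q ≤ p)
    (hd : ∀ j < α, LExt p q j) : ∃ r ≤ q, R α ζ r p := by
  let δ : G := Finsupp.single α 1
  have δ1 : 0 ≤ δ := Finsupp.single_nonneg.2 zero_le_one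
  have δ2 : ∀ ξ < α, δ ∉ Gs (Iic ξ) := fun ξ a b => by
    simpa [δ] using (Finsupp.mem_supported' _ _).1 b α a.not_ge
  let θ : Ordinal.{0} → Ordinal.{0} := fun j => if α ≤ j then q.θ j + 1 else q.θ j
  let e := fun j => if α ≤ j then stepF (p.θ j) (q.θ j) (q.e j) (· + δ) δ else q.e j
  let ρ := fun j => if α ≤ j then stepF (p.θ j) (q.θ j) (q.ρ j) (max · ζ) ζ else q.ρ j
  let f : Ordinal.{0} → Ordinal.{0} → Ordinal.{0} := fun β => if β ≤ q.γ then q.f β else θ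
  let E := stepF p.γ q.γ q.E (· + δ) δ
  have hl : ∀ j < ω₁, Loc j (θ j) (e j) (ρ j) := fun j a => by
    simp only [θ, e, ρ]
    split_ifs with b
    · exact (q.loc j a).step (h.1 j a).1 δ1 (Finsupp.single_mem_supported _ _ b)
        (hζ.trans_le (bo_mono b))
    · exact q.loc j a
  have h1 : ∀ j, ∀ η ≤ q.θ j, e j η = q.e j η ∧ ρ j η = q.ρ j η := fun j η a => by
    simp only [e, ρ]
    split_ifs
    · exact ⟨stepF_old a, stepF_old a⟩
    · exact ⟨rfl, rfl⟩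
  have h2 : ∀ β ≤ q.γ, f β = q.f β ∧ E β = q.E β := fun β a => ⟨if_pos a, stepF_old a⟩
  have h3 : f (q.γ + 1) = θ := if_neg (lt_add_one _).not_ge
  have hp : ∀ᶠ j in F1, q.f p.γ j = p.θ j := by
    filter_upwards [p.al, ev_lt] with j a b
    rw [(h.2.2 _ le_rfl).1 j b, a]
  have h4 : ∃ ξ < ω₁, ∀ᶠ j in F1, Coh ξ (q.θ j) (q.ρ j (q.θ j)) (ρ j (θ j)) := by
    obtain ⟨ξ, a, b⟩ := q.coh_le h.2.1 le_rfl
    refine ⟨max ξ α, max_lt a hα, ?_⟩
    filter_upwards [b, hp, q.al, ev_ge hα] with j b c d g z hz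
    rw [c, d] at b
    simp only [ρ, θ, if_pos g]
    rcases lt_or_ge z (p.θ j) with k | k
    · rw [stepF_low k]
      exact (b.2.mono (le_max_left _ _) le_rfl z k).symm
    · rw [stepF_mid k hz, max_assoc, max_eq_right (hζ.le.trans (bo_mono (le_max_right _ _)))]
  let r : SS := ⟨θ, e, ρ, q.γ + 1, f, E, hl, (la_limit _).add_one_lt q.γ_lt, fun β a j b => by
      simp only [f]
      split_ifs with c
      · exact q.f_lt β c j b
      · exact (hl j b).lt,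
    Eventually.of_forall fun j => congrFun h3 j, fun β β' a b => by
      rcases b.lt_or_eq with b | rfl
      · exact q.g1_of (Eventually.of_forall fun j η c z _ =>
          ⟨congrFun (h1 j η c).1 z, congrFun (h1 j η c).2 z⟩) (fun β c =>
          ⟨fun j _ => congrFun (h2 β c).1 j, fun b _ => congrFun (h2 β c).2 b⟩) a
          (lt_add_one_iff.1 b)
      · have a' := lt_add_one_iff.1 a
        obtain ⟨ξ, c, d⟩ := h4
        obtain ⟨ξ', c', d'⟩ := q.coh_le a' le_rfl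
        refine ⟨max ξ ξ', max_lt c c', ?_⟩
        have key : ∀ᶠ j in F1, e j (θ j) (q.f β j) = E (q.γ + 1) β := by
          rcases step_cases p.γ q.γ β a with k | k | rfl
          · obtain ⟨_, -, l⟩ := q.g1 β p.γ k h.2.1
            filter_upwards [l, hp, ev_ge hα] with j l m n
            simp only [e, θ, E, if_pos n]
            rw [m] at l
            rw [stepF_low k, stepF_low l.1, l.2.1]
          · obtain ⟨_, -, l⟩ := q.g1 β q.γ k.2 le_rfl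
            obtain ⟨_, -, l'⟩ := q.coh_le k.1 a'
            filter_upwards [l, l', hp, q.al, ev_ge hα] with j l l' m m' n
            simp only [e, θ, E, if_pos n]
            rw [m] at l'
            rw [m'] at l
            rw [stepF_mid k.1 k.2, stepF_mid l'.1 l.1, l.2.1]
          · filter_upwards [q.al, ev_ge hα, ev_lt] with j m n o
            simp only [e, θ, E, if_pos n]
            rw [m, stepF_top h.2.1, stepF_top (h.1 j o).1]
        filter_upwards [key, d, d', q.al, ev_ge hα] with j k d d' m n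
        rw [h3, (h2 β a').1]
        rw [m] at d'
        refine ⟨?_, k, ?_⟩
        · simp only [θ, if_pos n]
          exact lt_add_one_iff.2 d'.1
        · rw [(h1 j _ d'.1).2]
          exact (d'.2.mono (le_max_right _ _) le_rfl).trans (d.mono (le_max_left _ _) d'.1),
    fun β a ξ b => by
      rcases a.lt_or_eq with a | rfl
      · exact q.g2_of (lt_add_one_iff.1 a) b fun c _ => congrFun (h2 β (lt_add_one_iff.1 a)).2 c
      · refine mk_union3 (x := q.γ) (aleph0_le_bc ξ) (fun z hz => ?_) (q.g2 _ h.2.1 ξ b)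
          (q.g2 _ le_rfl ξ b)
        have := hz.2
        simp only [E] at this
        rcases step_cases p.γ q.γ z hz.1 with c | c | rfl
        · rw [stepF_low c] at this
          exact Or.inl (Or.inl ⟨c, this⟩)
        · rw [stepF_mid c.1 c.2] at this
          exact Or.inl (Or.inr ⟨c.2, (Gs_of_add (q.E_spec c.2 le_rfl).1 δ1 this).1⟩)
        · exact Or.inr rfl⟩
  have hr : r ≤ q := ⟨fun j _ => ⟨by
      simp only [r, θ]
      split_ifs
      · exact (lt_add_one _).le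
      · exact le_rfl, fun η c z _ => ⟨congrFun (h1 j η c).1 z, congrFun (h1 j η c).2 z⟩⟩,
    (lt_add_one _).le, fun β c =>
      ⟨fun j _ => congrFun (h2 β c).1 j, fun b _ => congrFun (h2 β c).2 b⟩⟩
  refine ⟨r, hr, hr.trans h, fun j a => ?_, fun j a b => ?_, fun j a b z c => ?_,
    fun j a b z c d => ?_, lt_add_one_iff.2 h.2.1, fun β a => ?_, fun β a b ξ c => ?_⟩
  · simpa only [LExt, r, θ, e, ρ, if_neg a.not_ge] using hd j a
  · simpa only [r, θ, if_pos a, lt_add_one_iff] using (h.1 j b).1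
  · simp only [r, θ, e, ρ, if_pos a, stepF_low c]
    exact (h.1 j b).2 _ le_rfl z c
  · simp only [r, θ, ρ, if_pos a] at c ⊢
    rcases step_cases (p.θ j) (q.θ j) z c with k | k | rfl
    · exact (k.not_ge d).elim
    · exact stepF_mid k.1 k.2 ▸ le_max_right _ _
    · exact (stepF_top d).ge
  · simp only [r, E, stepF_low a]
    exact (h.2.2 _ le_rfl).2 β a
  · simp only [r, E] at a ⊢
    rcases step_cases p.γ q.γ β a with k | k | rfl
    · exact (k.not_ge b).elim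
    · rw [stepF_mid k.1 k.2]
      exact fun l => δ2 ξ c (Gs_of_add (q.E_spec k.2 le_rfl).1 δ1 l).2
    · exact stepF_top b ▸ δ2 ξ c

end SS

end Pool.Agent.MP_7b2404_lc

end

-- part MP_7b2404_lc.Coll
section

/-!
The product of the collapses of `ℶ_{α+1}` to `ℶ_α⁺`.
-/

namespace Pool.Agent.MP_7b2404_lc

open Cardinal Ordinal Set Order

/-- Conditions of the product of collapses. -/
structure CC : Type 1 where
  len : Ordinal.{0} → Ordinal.{0}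
  g : Ordinal.{0} → Ordinal.{0} → Ordinal.{0}
  len_lt : ∀ α, len α < la α
  g_lt : ∀ α, ∀ η < len α, g α η < bo (α + 1)
  supp : ∃ b, InK b ∧ ∀ α, b ≤ α → len α = 0

namespace CC

/-- `p` extends `q` at coordinate `α`. -/
def Ext (p q : CC) (α : Ordinal.{0}) : Prop :=
  q.len α ≤ p.len α ∧ ∀ η < q.len α, p.g α η = q.g α η

theorem Ext.refl (p : CC) (α : Ordinal.{0}) : Ext p p α := ⟨le_rfl, fun _ _ => rfl⟩

theorem Ext.trans {p q r : CC} {α : Ordinal.{0}} (a : Ext p q α) (b : Ext q r α) : Ext p r α :=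
  ⟨b.1.trans a.1, fun η h => (a.2 η (h.trans_le b.1)).trans (b.2 η h)⟩

instance : Preorder CC where
  le p q := ∀ α, Ext p q α
  le_refl p := Ext.refl p
  le_trans _ _ _ a b α := (a α).trans (b α)

/-- The trivial condition. -/
def one : CC := ⟨fun _ => 0, fun _ _ => 0, fun α => (la_limit α).bot_lt,
  fun _ _ h => (not_lt_zero h).elim, 0, InK.zero, fun _ _ => rfl⟩

open Classical in
/-- Coordinates below `α` from `p`, the others from `q`. -/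
noncomputable def gl (α : Ordinal.{0}) (p q : CC) : CC where
  len β := if β < α then p.len β else q.len β
  g β := if β < α then p.g β else q.g β
  len_lt β := by split_ifs <;> exact len_lt _ β
  g_lt β η h := by
    split_ifs at h ⊢ <;> exact g_lt _ β η h
  supp := by
    obtain ⟨a, a1, a2⟩ := p.supp
    obtain ⟨b, b1, b2⟩ := q.supp
    refine ⟨max a b, a1.max b1, fun β h => ?_⟩
    split_ifs
    · exact a2 β (le_of_max_le_left h)
    · exact b2 β (le_of_max_le_right h)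

theorem lim {α ε : Ordinal.{0}} (hα : InK α) (hε : ε ≤ bo α) (h0 : 0 < ε) (s : Ordinal.{0} → CC)
    (hs : ∀ ζ ζ', ζ < ζ' → ζ' < ε → s ζ' ≤ s ζ ∧ ∀ β < α, Ext (s ζ) (s ζ') β) :
    ∃ r, ∀ ζ < ε, r ≤ s ζ ∧ ∀ β < α, Ext (s ζ) r β := by
  choose l l1 l2 using fun β => exists_lub ε fun ζ => (s ζ).len β
  obtain ⟨w, hw⟩ := glue ε (fun ζ (z : Ordinal.{0} × Ordinal.{0}) => z.2 < (s ζ).len z.1)
    (fun ζ z => (s ζ).g z.1 z.2) fun ζ ζ' a b z hz => ((hs ζ ζ' a b).1 z.1).2 z.2 hz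
  have hl : ∀ β < α, ∀ ζ < ε, l β ≤ (s ζ).len β := fun β hβ ζ hζ => le_of_forall_lt fun η hη => by
    obtain ⟨ζ', a, b⟩ := l2 β η hη
    rcases lt_trichotomy ζ ζ' with c | c | c
    · exact b.trans_le ((hs _ _ c a).2 β hβ).1
    · exact c ▸ b
    · exact b.trans_le ((hs _ _ c hζ).1 β).1
  refine ⟨⟨l, fun β η => w (β, η), fun β => ?_, fun β η hη => ?_, ?_⟩, fun ζ hζ =>
    ⟨fun β => ⟨l1 β ζ hζ, fun η hη => hw ζ hζ (β, η) hη⟩, fun β hβ => ⟨hl β hβ ζ hζ,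
      fun η hη => (hw ζ hζ (β, η) (lt_of_lt_of_le hη (hl β hβ ζ hζ))).symm⟩⟩⟩
  · rcases lt_or_ge β α with h | h
    · exact (hl β h 0 h0).trans_lt (len_lt _ _)
    · exact lub_lt_la (hε.trans (bo_mono h)) (l2 β) fun ζ _ => len_lt _ _
  · obtain ⟨ζ, a, b⟩ := l2 β η hη
    rw [hw ζ a (β, η) b]
    exact g_lt _ _ _ b
  · choose b b1 b2 using fun ζ : Iio ε => (s ζ).supp
    obtain ⟨c, c1, c2⟩ := hα.bdd (mk_Iio_le (hε.trans_lt (bo_lt_la α))) b b1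
    refine ⟨c, c1, fun β hβ => le_zero_iff.1 (le_of_forall_lt fun η hη => ?_)⟩
    obtain ⟨ζ, a, h⟩ := l2 β η hη
    rwa [b2 ⟨ζ, a⟩ β ((c2 _).trans hβ)] at h

theorem few {α : Ordinal.{0}} (hα : ¬ IsSuccLimit α) : ∃ W : Set CC, #W ≤ bc α ∧
    ∀ p, ∃ w ∈ W, (∀ β < α, Ext p w β) ∧ ∀ β < α, Ext w p β := by
  classical
  obtain ⟨W, a, b⟩ := few_of_code (fun p q : CC => ∀ β < α, Ext p q β)
    (fun p (β : Iio α) => (p.len β, fun η => if η < p.len β then p.g β η else 0))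
    (fun p q e β hβ => by
      have := congrFun e ⟨β, hβ⟩
      simp only [Prod.mk.injEq] at this
      refine ⟨this.1.ge, fun η hη => ?_⟩
      simpa [this.1, hη] using congrFun this.2 η)
    (S := {F | ∀ β : Iio α, F β ∈ Tab β.1 Iio (Iio (bo (β.1 + 1))) 0})
    (fun p β => ⟨p.len_lt _, fun η hη => by simpa [mem_Iio.1 hη] using p.g_lt _ η hη,
      fun η hη => if_neg hη⟩)
  exact ⟨W, a.trans (mk_pi_le hα (fun β => Tab β Iio (Iio (bo (β + 1))) 0) fun β _ =>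
    mk_tab _ _ _ _ (fun _ => mk_Iio_le) (mk_Iio_bo _).le), b⟩

/-- The splitting at level `α`. -/
noncomputable def lay (α : Lev) : Lay CC α.1 where
  HL p q := ∀ β < α.1, Ext p q β
  TL p q := ∀ β, α.1 ≤ β → Ext p q β
  gl := gl α.1
  R _ r p := r ≤ p ∧ ∀ β < α.1, Ext p r β
  le_iff := ⟨fun h => ⟨fun β _ => h β, fun β _ => h β⟩,
    fun h β => (lt_or_ge β α.1).elim (h.1 β) (h.2 β)⟩
  HL_trans a b β h := (a β h).trans (b β h)
  TL_trans a b β h := (a β h).trans (b β h)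
  gl_h p q := by
    constructor <;> intro β h <;> simp [Ext, gl, h]
  gl_t p q := by
    constructor <;> intro β h <;> simp [Ext, gl, h.not_gt]
  few := few α.2.2
  R_le h := h.1
  R_trans _ a b := ⟨b.1.trans a.1, fun β h => (a.2 β h).trans (b.2 β h)⟩
  R_step _ _ _ q a b := ⟨q, le_rfl, a, b⟩
  R_lim _ a b s hs := lim α.2.1 a b.bot_lt s hs

open Classical in
/-- Extending one coordinate. -/
theorem extend {α : Ordinal.{0}} (hα : InK α) (p : CC) {η x : Ordinal.{0}} (hη : η < la α)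
    (hx : x < bo (α + 1)) : ∃ q ≤ p, η < q.len α ∧ p.len α < q.len α ∧ q.g α (p.len α) = x := by
  refine ⟨⟨fun β => if β = α then max (p.len α) η + 1 else p.len β,
    fun β ζ => if ζ < p.len β then p.g β ζ else x, fun β => ?_, fun β ζ h => ?_, ?_⟩,
    fun β => ⟨?_, fun ζ h => if_pos h⟩, ?_, ?_, ?_⟩
  · split_ifs with h
    · exact h ▸ (la_limit α).add_one_lt (max_lt (p.len_lt α) hη)
    · exact p.len_lt β
  · split_ifs at h ⊢ with h1 h2 h2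
    · exact p.g_lt _ _ h1
    · exact p.g_lt _ _ h1
    · exact h2 ▸ hx
    · exact (h1 h).elim
  · obtain ⟨b, b1, b2⟩ := p.supp
    refine ⟨max b (α + 1), b1.max hα.succ, fun β h => ?_⟩
    rw [if_neg (add_one_le_iff.1 (le_of_max_le_right h)).ne', b2 β (le_of_max_le_left h)]
  · dsimp only
    split_ifs with h
    · exact h ▸ (le_max_left _ _).trans (lt_add_one _).le
    · exact le_rfl
  · simpa using le_max_right _ _
  · simp
  · simp

/-- `η` is the first time at which `x` is listed at coordinate `α`. -/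
def T (α : Ordinal.{0}) (p : CC) (x η : Ordinal.{0}) : Prop :=
  η < p.len α ∧ p.g α η = x ∧ ∀ ζ < η, p.g α ζ ≠ x

theorem T.mono {α : Ordinal.{0}} {p q : CC} {x η : Ordinal.{0}} (h : q ≤ p) (a : T α p x η) :
    T α q x η :=
  ⟨a.1.trans_le (h α).1, ((h α).2 η a.1).trans a.2.1,
    fun ζ b => ((h α).2 ζ (b.trans a.1)).symm ▸ a.2.2 ζ b⟩

theorem T.inj {α : Ordinal.{0}} {p : CC} {x η x' η' : Ordinal.{0}} (a : T α p x η)
    (b : T α p x' η') : x = x' ↔ η = η' := by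
  constructor
  · rintro rfl
    rcases lt_trichotomy η η' with h | h | h
    · exact (b.2.2 η h a.2.1).elim
    · exact h
    · exact (a.2.2 η' h b.2.1).elim
  · rintro rfl
    exact a.2.1.symm.trans b.2.1

theorem T_of {α : Ordinal.{0}} {p : CC} {x η : Ordinal.{0}} (a : η < p.len α) (b : p.g α η = x) :
    ∃ ζ ≤ η, T α p x ζ := by
  obtain ⟨ζ, h1, h2⟩ := wellFounded_lt.has_min {ζ | p.g α ζ = x} ⟨η, b⟩
  have : ζ ≤ η := not_lt.1 (h2 η b)
  exact ⟨ζ, this, this.trans_lt a, h1, fun ξ c d => h2 ξ d c⟩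

theorem T_tot {α : Ordinal.{0}} (hα : InK α) {x : Ordinal.{0}} (hx : x < bo (α + 1)) (p : CC) :
    ∃ q ≤ p, ∃ η, T α q x η := by
  obtain ⟨q, a, -, b, c⟩ := extend hα p (la_limit α).bot_lt hx
  obtain ⟨ζ, -, h⟩ := T_of b c
  exact ⟨q, a, ζ, h⟩

open Classical in
/-- Making all coordinates below `ω₁` long. -/
theorem extend_all (p : CC) (t : Ordinal.{0} → Ordinal.{0}) (ht : ∀ j < ω₁, t j < la j) :
    ∃ q ≤ p, ∀ j < ω₁, t j ≤ q.len j := by
  refine ⟨⟨fun β => if β < ω₁ then max (p.len β) (t β) else p.len β,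
    fun β ζ => if ζ < p.len β then p.g β ζ else 0, fun β => ?_, fun β ζ h => ?_, ?_⟩,
    fun β => ⟨?_, fun ζ h => if_pos h⟩, fun j hj => ?_⟩
  · split_ifs with h
    · exact max_lt (p.len_lt β) (ht β h)
    · exact p.len_lt β
  · split_ifs with h1
    · exact p.g_lt _ _ h1
    · exact (bo_limit _).bot_lt
  · obtain ⟨b, b1, b2⟩ := p.supp
    refine ⟨max b ω₁, b1.max InK.omega1, fun β h => ?_⟩
    rw [if_neg (le_of_max_le_right h).not_gt, b2 β (le_of_max_le_left h)]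
  · dsimp only
    split_ifs with h
    · exact le_max_left _ _
    · exact le_rfl
  · simp [hj]

end CC

end Pool.Agent.MP_7b2404_lc

end

-- part MP_7b2404_lc.SqLim
section

/-!
Limits of plays, counting of heads, and the splittings of the whole forcing.
-/

namespace Pool.Agent.MP_7b2404_lc

open Cardinal Ordinal Set Order Filter

namespace SS

open Classical in
theorem lim {α ε : Ordinal.{0}} (hα : α < ω₁) (hε : ε ≤ bo α) (hl : IsSuccLimit ε)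
    (s : Ordinal.{0} → SS) (hs : ∀ ζ ζ', ζ < ζ' → ζ' < ε → R α ζ (s ζ') (s ζ)) :
    ∃ r, ∀ ζ < ε, R α ζ r (s ζ) := by
  have h0 : 0 < ε := hl.bot_lt
  choose θ θ1 θ2 using fun j => exists_lub ε fun ζ => (s ζ).θ j
  obtain ⟨γ, γ1, γ2⟩ := exists_lub ε fun ζ => (s ζ).γ
  obtain ⟨w, hw⟩ := glue ε
    (fun ζ (z : Ordinal.{0} × Ordinal.{0} × Ordinal.{0}) =>
      z.1 < ω₁ ∧ z.2.1 ≤ (s ζ).θ z.1 ∧ z.2.2 < z.2.1)
    (fun ζ z => ((s ζ).e z.1 z.2.1 z.2.2, (s ζ).ρ z.1 z.2.1 z.2.2)) fun ζ ζ' a b z hz =>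
      Prod.ext_iff.2 (((hs ζ ζ' a b).le.1 _ hz.1).2 _ hz.2.1 _ hz.2.2)
  obtain ⟨t, ht⟩ := glue ε
    (fun ζ (z : Ordinal.{0} × Ordinal.{0}) => α ≤ z.1 ∧ z.1 < ω₁ ∧ z.2 < (s ζ).θ z.1)
    (fun ζ z => ((s ζ).e z.1 ((s ζ).θ z.1) z.2, (s ζ).ρ z.1 ((s ζ).θ z.1) z.2))
    fun ζ ζ' a b z hz => Prod.ext_iff.2 ((hs ζ ζ' a b).top _ hz.1 hz.2.1 _ hz.2.2)
  obtain ⟨wf, hf⟩ := glue ε
    (fun ζ (z : Ordinal.{0} × Ordinal.{0}) => z.1 ≤ (s ζ).γ ∧ z.2 < ω₁)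
    (fun ζ z => (s ζ).f z.1 z.2) fun ζ ζ' a b z hz => ((hs ζ ζ' a b).le.2.2 _ hz.1).1 _ hz.2
  obtain ⟨wE, hE⟩ := glue ε
    (fun ζ (z : Ordinal.{0} × Ordinal.{0}) => z.1 ≤ (s ζ).γ ∧ z.2 < z.1)
    (fun ζ z => (s ζ).E z.1 z.2) fun ζ ζ' a b z hz => ((hs ζ ζ' a b).le.2.2 _ hz.1).2 _ hz.2
  obtain ⟨tE, hT⟩ := glue ε (fun ζ z => z < (s ζ).γ) (fun ζ z => (s ζ).E (s ζ).γ z)
    fun ζ ζ' a b z hz => (hs ζ ζ' a b).gtop _ hz
  have θ3 : ∀ j, α ≤ j → j < ω₁ → ∀ ζ < ε, (s ζ).θ j < θ j := fun j a b ζ c =>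
    ((hs ζ _ (lt_add_one ζ) (hl.add_one_lt c)).lt j a b).trans_le (θ1 j _ (hl.add_one_lt c))
  have γ3 : ∀ ζ < ε, (s ζ).γ < γ := fun ζ c =>
    (hs ζ _ (lt_add_one ζ) (hl.add_one_lt c)).glt.trans_le (γ1 _ (hl.add_one_lt c))
  have θ4 : ∀ j < α, ∀ ζ < ε, θ j = (s ζ).θ j := fun j a ζ b =>
    le_antisymm (le_of_forall_lt fun η hη => by
      obtain ⟨ζ', c, d⟩ := θ2 j η hη
      rcases lt_trichotomy ζ ζ' with k | k | k
      · exact d.trans_le ((hs _ _ k c).hd j a).1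
      · exact k ▸ d
      · exact d.trans_le ((hs _ _ k b).le.1 j (a.trans hα)).1) (θ1 j ζ b)
  have later : ∀ ζ < ε, ∀ ζ' < ε, ∃ ζ'' < ε, ζ < ζ'' ∧ ζ' < ζ'' := fun ζ a ζ' b =>
    ⟨max ζ ζ' + 1, hl.add_one_lt (max_lt a b), lt_add_one_iff.2 (le_max_left _ _),
      lt_add_one_iff.2 (le_max_right _ _)⟩
  let e : Ordinal.{0} → Ordinal.{0} → Ordinal.{0} → G := fun j η z =>
    if α ≤ j ∧ η = θ j then (t (j, z)).1 else (w (j, η, z)).1
  let ρ : Ordinal.{0} → Ordinal.{0} → Ordinal.{0} → Ordinal.{0} := fun j η z =>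
    if α ≤ j ∧ η = θ j then (t (j, z)).2 else (w (j, η, z)).2
  let f : Ordinal.{0} → Ordinal.{0} → Ordinal.{0} := fun β j => if β = γ then θ j else wf (β, j)
  let E : Ordinal.{0} → Ordinal.{0} → G := fun β b => if β = γ then tE b else wE (β, b)
  have h1 : ∀ ζ < ε, ∀ j < ω₁, ∀ η ≤ (s ζ).θ j, ∀ z < η,
      e j η z = (s ζ).e j η z ∧ ρ j η z = (s ζ).ρ j η z := fun ζ a j b η c z d => by
    have : ¬ (α ≤ j ∧ η = θ j) := fun k => (θ3 j k.1 b ζ a).not_ge (k.2 ▸ c)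
    simp only [e, ρ, if_neg this, hw ζ a (j, η, z) ⟨b, c, d⟩, and_self]
  have h2 : ∀ ζ < ε, ∀ j, α ≤ j → j < ω₁ → ∀ z < (s ζ).θ j,
      e j (θ j) z = (s ζ).e j ((s ζ).θ j) z ∧ ρ j (θ j) z = (s ζ).ρ j ((s ζ).θ j) z :=
    fun ζ a j b c z d => by simp only [e, ρ, b, and_self, if_true, ht ζ a (j, z) ⟨b, c, d⟩]
  have h3 : ∀ ζ < ε, ∀ β ≤ (s ζ).γ,
      (∀ j < ω₁, f β j = (s ζ).f β j) ∧ ∀ b < β, E β b = (s ζ).E β b := fun ζ a β b => by
    simp only [f, E, if_neg (b.trans_lt (γ3 ζ a)).ne]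
    exact ⟨fun j c => hf ζ a (β, j) ⟨b, c⟩, fun j c => hE ζ a (β, j) ⟨b, c⟩⟩
  have h4 : ∀ ζ < ε, ∀ β < (s ζ).γ, E γ β = (s ζ).E (s ζ).γ β := fun ζ a β b => by
    simp only [E, if_true, hT ζ a β b]
  have h5 : ∀ ζ < ε, ∀ j, α ≤ j → j < ω₁ → ∀ z < θ j, (s ζ).θ j ≤ z → ζ ≤ ρ j (θ j) z := by
    intro ζ a j b c z d k
    obtain ⟨ζ', m, n⟩ := θ2 j z d
    obtain ⟨ξ, o, u, v⟩ := later ζ a ζ' m
    have := n.trans ((hs _ _ v o).lt j b c)
    exact (h2 ξ o j b c z this).2 ▸ (hs _ _ u o).big j b c z this k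
  have h6 : ∀ ζ < ε, ∀ β < γ, (s ζ).γ ≤ β → ∀ ξ < α, E γ β ∉ Gs (Iic ξ) := by
    intro ζ a β d k
    obtain ⟨ζ', m, n⟩ := γ2 β d
    obtain ⟨ξ, o, u, v⟩ := later ζ a ζ' m
    have := n.trans (hs _ _ v o).glt
    exact h4 ξ o β this ▸ (hs _ _ u o).gbig β this k
  have hloc : ∀ j < ω₁, Loc j (θ j) (e j) (ρ j) := fun j a => by
    rcases lt_or_ge j α with b | b
    · have := (s 0).loc j a
      rw [θ4 j b 0 h0]
      exact ⟨this.lt, fun η c => (this.row η c).congr (h1 0 h0 j a η c), fun η c η' d =>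
        (this.lc η c η' d).congr le_rfl
          (fun z k => (h1 0 h0 j a η c z (k.trans_le (min_le_left _ _))).1)
          fun z k => (h1 0 h0 j a η' d z (k.trans_le (min_le_right _ _))).1⟩
    · exact Loc.lim (lub_lt_la (hε.trans (bo_mono b)) (θ2 j) fun ζ _ => ((s ζ).loc j a).lt)
        (fun ζ => (s ζ).θ j) (fun ζ => (s ζ).e j) (fun ζ => (s ζ).ρ j) (fun ζ _ => (s ζ).loc j a)
        (θ2 j) (fun ζ c η _ => h1 ζ c j a η) (fun ζ c => h2 ζ c j b a) fun ζ c => h5 ζ c j b a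
  have hfγ : ∀ j, f γ j = θ j := fun j => if_pos rfl
  let r : SS := ⟨θ, e, ρ, γ, f, E, hloc,
    lub_lt_la (hε.trans (bo_mono hα.le)) γ2 fun ζ _ => (s ζ).γ_lt, fun β a j b => by
      rcases a.lt_or_eq with a | rfl
      · obtain ⟨ζ, c, d⟩ := γ2 β a
        exact (h3 ζ c β d.le).1 j b ▸ (s ζ).f_lt β d.le j b
      · exact hfγ j ▸ (hloc j b).lt,
    Eventually.of_forall hfγ, fun β β' a b => by
      rcases b.lt_or_eq with b | rfl
      · obtain ⟨ζ, c, d⟩ := γ2 β' b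
        exact (s ζ).g1_of (ev_lt.mono fun j => h1 ζ c j) (h3 ζ c) a d.le
      · obtain ⟨ζ, c, d⟩ := γ2 β a
        obtain ⟨ξ, k, m⟩ := (s ζ).g1 β _ d le_rfl
        refine ⟨ξ, k, ?_⟩
        filter_upwards [m, (s ζ).al, ev_ge hα, ev_lt] with j m n o u
        rw [n] at m
        rw [hfγ, (h3 ζ c β d.le).1 j u, (h2 ζ c j o u _ m.1).1, h4 ζ c β d]
        refine ⟨m.1.trans (θ3 j o u ζ c), m.2.1, fun z v => ?_⟩
        rw [(h2 ζ c j o u _ (v.trans m.1)).2, (h1 ζ c j u _ m.1.le z v).2, m.2.2 z v],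
    fun β a ξ b => by
      rcases a.lt_or_eq with a | rfl
      · obtain ⟨ζ, c, d⟩ := γ2 β a
        exact (s ζ).g2_of d.le b (h3 ζ c β d.le).2
      · rcases lt_or_ge ξ α with c | c
        · refine le_trans (mk_le_mk_of_subset fun z hz => ?_) ((s 0).g2 _ le_rfl ξ b)
          have : z < (s 0).γ := lt_of_not_ge fun d => h6 0 h0 z hz.1 d ξ c hz.2
          exact ⟨this, h4 0 h0 z this ▸ hz.2⟩
        · refine mk_iUnion_le' (aleph0_le_bc ξ) (fun z hz => ?_)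
            (mk_Iio_le ((hε.trans (bo_mono c)).trans_lt (bo_lt_la ξ)))
            fun ζ _ => (s ζ).g2 _ le_rfl ξ b
          obtain ⟨ζ, c, d⟩ := γ2 z hz.1
          exact ⟨ζ, c, d, h4 ζ c z d ▸ hz.2⟩⟩
  exact ⟨r, fun ζ a => ⟨⟨fun j b => ⟨θ1 j ζ a, h1 ζ a j b⟩, γ1 ζ a, h3 ζ a⟩,
    fun j b => ⟨(θ4 j b ζ a).le, fun η c z d =>
      let k := h1 ζ a j (b.trans hα) η (c.trans (θ4 j b ζ a).le) z d; ⟨k.1.symm, k.2.symm⟩⟩,
    fun j b c => θ3 j b c ζ a, h2 ζ a, h5 ζ a, γ3 ζ a, h4 ζ a, h6 ζ a⟩⟩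

open Classical in
/-- The code of the data at level `j`. -/
noncomputable def code (p : SS) (j : Ordinal.{0}) :
    Ordinal.{0} × (Ordinal.{0} × Ordinal.{0} → G × Ordinal.{0}) :=
  if j < ω₁ then (p.θ j, fun z => if z.1 ≤ p.θ j ∧ z.2 < z.1 then (p.e j z.1 z.2, p.ρ j z.1 z.2)
    else (0, 0)) else (0, fun _ => (0, 0))

theorem mk_Iic_le {α η : Ordinal.{0}} (h : η < la α) : #(Iic η) ≤ bc α := by
  have : Iic η ⊆ Iio (η + 1) := fun _ k => mem_Iio.2 (lt_add_one_iff.2 (mem_Iic.1 k))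
  exact le_trans (mk_le_mk_of_subset this) (mk_Iio_le ((la_limit α).add_one_lt h))

/-- The set of possible codes at level `j`. -/
def Code (j : Ordinal.{0}) : Set (Ordinal.{0} × (Ordinal.{0} × Ordinal.{0} → G × Ordinal.{0})) :=
  Tab j (fun l => Iic l ×ˢ Iic l) ((Gs (Iic j) : Set G) ×ˢ Iio (bo j)) (0, 0)

theorem mk_Code (j : Ordinal.{0}) : #(Code j) ≤ bc (j + 1) := by
  refine mk_tab _ _ _ _ (fun l h => ?_) ?_ <;> rw [mk_setProd]
  · exact mul_le_bc (mk_Iic_le h) (mk_Iic_le h)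
  · exact (mul_le_bc (mk_Gs nonempty_Iic (mk_Iic_le (lt_la.2 j.card_le_beth)))
      (mk_Iio_bo j).le).trans (bc_mono (lt_add_one j).le)

theorem code_mem (p : SS) (j : Ordinal.{0}) : p.code j ∈ Code j := by
  have h0 : ((0, 0) : G × Ordinal.{0}) ∈ (Gs (Iic j) : Set G) ×ˢ Iio (bo j) :=
    ⟨zero_mem (Gs (Iic j)), (bo_limit j).bot_lt⟩
  unfold code
  split_ifs with h
  · refine ⟨(p.loc j h).lt, fun z _ => ?_, fun z hz => if_neg fun k => hz ⟨k.1, k.2.le.trans k.1⟩⟩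
    dsimp only
    split_ifs with k
    · exact ⟨((p.loc j h).row _ k.1).supp _ k.2, ((p.loc j h).row _ k.1).lt _ k.2⟩
    · exact h0
  · exact ⟨(la_limit j).bot_lt, fun _ _ => h0, fun _ _ => rfl⟩

theorem lext_of_code {p q : SS} {j : Ordinal.{0}} (h : j < ω₁) (e : p.code j = q.code j) :
    LExt p q j := by
  simp only [code, if_pos h, Prod.mk.injEq] at e
  refine ⟨e.1.ge, fun η a z b => ?_⟩
  simpa [e.1, a, b] using congrFun e.2 (η, z)

/-- The splitting at a countable level. -/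
noncomputable def lay (α : Ordinal.{0}) (hα : α < ω₁) (h : ¬ IsSuccLimit α) : Lay SS α where
  HL p q := ∀ j < α, LExt p q j
  TL p q := (∀ j, α ≤ j → j < ω₁ → LExt p q j) ∧ GExt p q
  gl := gl α hα
  R := R α
  le_iff := ⟨fun h => ⟨fun j a => h.1 j (a.trans hα), fun j _ => h.1 j, h.2⟩,
    fun h => ⟨fun j a => (lt_or_ge j α).elim (h.1 j) fun b => h.2.1 j b a, h.2.2⟩⟩
  HL_trans a b β h := (a β h).trans (b β h)
  TL_trans a b := ⟨fun β h k => (a.1 β h k).trans (b.1 β h k), a.2.trans b.2⟩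
  gl_h p q := by
    constructor <;> intro β h <;> simp [LExt, gl, h]
  gl_t p q := by
    refine ⟨⟨?_, GExt.refl q⟩, ?_, GExt.refl q⟩ <;> intro β h <;> simp [LExt, gl, h.not_gt]
  few := by
    obtain ⟨W, a, b⟩ := few_of_code (fun p q : SS => ∀ j < α, LExt p q j)
      (fun p (β : Iio α) => p.code β)
      (fun p q e β hβ => lext_of_code (hβ.trans hα) (congrFun e ⟨β, hβ⟩))
      (S := {F | ∀ β : Iio α, F β ∈ Code β.1}) (fun p β => p.code_mem β)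
    exact ⟨W, a.trans (mk_pi_le h Code fun β _ => mk_Code β), b⟩
  R_le h := h.le
  R_trans := R.trans
  R_step _ a p q := step hα a p q
  R_lim _ a b := lim hα a b

open Classical in
theorem few {α : Ordinal.{0}} (hα : ω₁ < α) (h : ¬ IsSuccLimit α) :
    ∃ W : Set SS, #W ≤ bc α ∧ ∀ p, ∃ w ∈ W, p ≤ w ∧ w ≤ p := by
  obtain ⟨W, a, b⟩ := few_of_code (fun p q : SS => p ≤ q)
    (fun p => (fun β : Iio α => p.code β, (p.γ, fun z : Ordinal.{0} × Ordinal.{0} =>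
      (if z.1 ≤ p.γ ∧ z.2 < z.1 then p.E z.1 z.2 else 0,
        if z.1 ≤ p.γ ∧ z.2 < ω₁ then p.f z.1 z.2 else 0))))
    (fun p q e => by
      simp only [Prod.mk.injEq] at e
      refine ⟨fun j a => lext_of_code a (congrFun e.1 ⟨j, a.trans hα⟩), e.2.1.ge,
        fun β a => ⟨fun j b => ?_, fun j b => ?_⟩⟩
      · simpa [e.2.1, a, b] using congrArg Prod.snd (congrFun e.2.2 (β, j))
      · simpa [e.2.1, a, b] using congrArg Prod.fst (congrFun e.2.2 (β, j)))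
    (S := {F | ∀ β : Iio α, F β ∈ Code β.1} ×ˢ Tab ω₁ (fun l => Iic l ×ˢ (Iic l ∪ Iio ω₁))
      ((Gs (Iio ω₁) : Set G) ×ˢ Iio (la ω₁)) (0, 0))
    (fun p => ⟨fun β => p.code_mem β, p.γ_lt, fun z _ => ⟨by
      dsimp only
      split_ifs with k
      · exact (p.E_spec k.2 k.1).2
      · exact zero_mem (Gs (Iio ω₁)), by
      dsimp only
      split_ifs with k
      · exact (p.f_lt _ k.1 _ k.2).trans_le (la_mono k.2.le)
      · exact (la_limit _).bot_lt⟩, fun z hz => by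
      dsimp only
      rw [if_neg fun k => hz ⟨k.1, Or.inl (k.2.le.trans k.1)⟩,
        if_neg fun k => hz ⟨k.1, Or.inr k.2⟩]⟩)
  refine ⟨W, a.trans ?_, b⟩
  have h1 : #(Iio ω₁) ≤ bc ω₁ := mk_Iio_le (lt_la.2 (card_le_beth _))
  rw [mk_setProd]
  refine mul_le_bc (mk_pi_le h Code fun β _ => mk_Code β) (le_trans
    (mk_tab _ _ _ _ (fun l k => ?_) ?_) (bc_mono (add_one_le_of_lt hα))) <;> rw [mk_setProd]
  · exact mul_le_bc (mk_Iic_le k) ((mk_union_le _ _).trans (add_le_bc (mk_Iic_le k) h1))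
  · exact mul_le_bc ((mk_Gs ⟨0, omega1_limit'.bot_lt⟩ h1).trans (bc_mono (lt_add_one _).le))
      (mk_Iio_la _)

theorem lev_gt (α : Lev) (h : ¬ α.1 < ω₁) : ω₁ < α.1 :=
  (not_lt.1 h).lt_of_ne fun e => α.2.2 (e ▸ omega1_limit')

open Classical in
/-- The splitting at any level. -/
noncomputable def lay' (α : Lev) : Lay SS α.1 :=
  if h : α.1 < ω₁ then lay α.1 h α.2.2 else Lay.triv (few (lev_gt α h) α.2.2)

theorem lay'_TL {α : Lev} (h : α.1 < ω₁) {p q : SS} :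
    (lay' α).TL p q ↔ (∀ j, α.1 ≤ j → j < ω₁ → LExt p q j) ∧ GExt p q := by
  rw [lay', dif_pos h]
  rfl

end SS

/-- The forcing. -/
abbrev PP : Type 1 := CC × SS

/-- The splittings of the forcing. -/
noncomputable def lays : Lays PP where
  L α := (CC.lay α).prod (SS.lay' α)
  mono α β h p q k := by
    refine ⟨fun j a => k.1 j (h.trans a), ?_⟩
    by_cases a : β.1 < ω₁
    · have := (SS.lay'_TL (h.trans_lt a)).1 k.2
      exact (SS.lay'_TL a).2 ⟨fun j b => this.1 j (h.trans b), this.2⟩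
    · rw [SS.lay', dif_neg a]
      trivial

theorem step_ext {α : Ordinal.{0}} (hα : α < ω₁) (p : SS) :
    ∃ r ≤ p, p.γ < r.γ ∧ ∀ j, α ≤ j → j < ω₁ → p.θ j < r.θ j :=
  let ⟨r, a, b⟩ := SS.step hα (bo_limit α).bot_lt p p le_rfl fun j _ => SS.LExt.refl p j
  ⟨r, a, b.glt, b.lt⟩

theorem ext_θ {j : Ordinal.{0}} (hj : j < ω₁) {η : Ordinal.{0}} (h : η < la j) (p : PP) :
    ∃ q ≤ p, η < q.2.θ j := by
  induction η using WellFoundedLT.induction generalizing p with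
  | _ η ih =>
    obtain ⟨q, a, b⟩ := lays.dist (InK.omega1.mono hj.le) (mk_Iio_le h)
      (fun i => {q | i.1 < q.2.θ j}) (fun β c i p q k m => lt_of_lt_of_le m
        (((SS.lay'_TL (c.trans_lt hj)).1 k.2).1 j c hj).1) (fun i => ih i.1 i.2 (i.2.trans h)) p
    obtain ⟨r, c, -, d⟩ := step_ext hj q.2
    exact ⟨(q.1, r), le_trans (b := q) ⟨le_rfl, c⟩ a,
      lt_of_le_of_lt (le_of_forall_lt fun i k => b ⟨i, k⟩) (d j le_rfl hj)⟩

theorem ext_γ {η : Ordinal.{0}} (h : η < la ω₁) (p : PP) : ∃ q ≤ p, η < q.2.γ := by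
  induction η using WellFoundedLT.induction generalizing p with
  | _ η ih =>
    obtain ⟨q, a, b⟩ := lays.dist InK.omega1 (mk_Iio_le h)
      (fun i => {q | i.1 < q.2.γ}) (fun β c i p q k m => lt_of_lt_of_le m
        ((SS.lay'_TL (c.lt_of_ne fun e => β.2.2 (e ▸ omega1_limit'))).1 k.2).2.1)
      (fun i => ih i.1 i.2 (i.2.trans h)) p
    obtain ⟨r, c, d, -⟩ := step_ext omega1_limit'.bot_lt q.2
    exact ⟨(q.1, r), le_trans (b := q) ⟨le_rfl, c⟩ a,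
      lt_of_le_of_lt (le_of_forall_lt fun i k => b ⟨i, k⟩) d⟩

/-- Countably many dense open sets have a dense intersection. -/
theorem dist0 (D : ℕ → Set PP) (h1 : ∀ i p q, q ≤ p → p ∈ D i → q ∈ D i)
    (h2 : ∀ i p, ∃ q ≤ p, q ∈ D i) (p : PP) : ∃ q ≤ p, ∀ i, q ∈ D i := by
  obtain ⟨q, a, b⟩ := lays.dist InK.zero (I := ULift ℕ) (by simp) (fun i => D i.down)
    (fun β c i p q k => h1 _ p q ((lays.L β).le_iff.2 ⟨⟨fun j d => (not_lt_zero (d.trans_le c)).elim,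
      by
        rw [SS.lay', dif_pos (c.trans_lt omega1_limit'.bot_lt)]
        exact fun j d => (not_lt_zero (d.trans_le c)).elim⟩, k⟩)) (fun i => h2 i.down) p
  exact ⟨q, a, fun i => b ⟨i⟩⟩

end Pool.Agent.MP_7b2404_lc

end

-- part MP_7b2404_lc.Tools
section

/-!
Ranks, pairing functions, codes of sequences of labels and splitting colourings.
-/

namespace Pool.Agent.MP_7b2404_lc

open Cardinal Ordinal Set Order Filter

open Classical in
/-- The order type of `D ∩ η`. -/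
noncomputable def rk (D : Set Ordinal.{0}) (η : Ordinal.{0}) : Ordinal.{0} :=
  ⨆ ζ : Iio η, if ζ.1 ∈ D then rk D ζ.1 + 1 else 0
termination_by η
decreasing_by exact ζ.2

theorem rk_lt {D : Set Ordinal.{0}} {ζ η : Ordinal.{0}} (a : ζ < η) (b : ζ ∈ D) :
    rk D ζ < rk D η := by
  conv_rhs => rw [rk]
  exact Ordinal.lt_iSup_iff.2 ⟨⟨ζ, a⟩, by simp [b]⟩

theorem rk_congr {D D' : Set Ordinal.{0}} {η : Ordinal.{0}} (h : ∀ ζ < η, ζ ∈ D ↔ ζ ∈ D') :
    rk D η = rk D' η := by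
  induction η using WellFoundedLT.induction with
  | _ η ih =>
    rw [rk, rk]
    refine iSup_congr fun ζ => ?_
    rw [ih ζ.1 ζ.2 fun a b => h a (b.trans ζ.2)]
    by_cases k : ζ.1 ∈ D
    · rw [if_pos k, if_pos ((h ζ.1 ζ.2).1 k)]
    · rw [if_neg k, if_neg fun l => k ((h ζ.1 ζ.2).2 l)]

theorem rk_bound {c : Cardinal.{0}} (hc : c.IsRegular) {D : Set Ordinal.{0}} {η : Ordinal.{0}}
    (h : #{z | z < η ∧ z ∈ D} < Cardinal.lift.{1} c) : rk D η < c.ord := by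
  induction η using WellFoundedLT.induction with
  | _ η ih =>
    obtain ⟨b, h1, h2⟩ := bdd_of_reg hc h (fun ζ => rk D ζ.1 + 1) fun ζ =>
      (Cardinal.isSuccLimit_ord hc.aleph0_le).add_one_lt (ih ζ.1 ζ.2.1 (lt_of_le_of_lt
        (mk_le_mk_of_subset fun z hz => And.intro (hz.1.trans ζ.2.1) hz.2) h))
    rw [rk]
    refine lt_of_le_of_lt (Ordinal.iSup_le fun ζ => ?_) h1
    split_ifs with k
    · exact h2 ⟨ζ.1, ζ.2, k⟩
    · exact zero_le

theorem exists_ext {ι X : Type 1} [Nonempty X] {S : Set ι} {T : Set X} (h : #S ≤ #T)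
    (hT : T.Nonempty) : ∃ φ : ι → X, (∀ a, φ a ∈ T) ∧ InjOn φ S := by
  classical
  obtain ⟨φ⟩ := h
  refine ⟨fun a => if k : a ∈ S then φ ⟨a, k⟩ else hT.choose, fun a => ?_, fun a k b l e => ?_⟩
  · dsimp only
    split_ifs
    · exact (φ _).2
    · exact hT.choose_spec
  · simp only [k, l, dif_pos] at e
    exact congrArg Subtype.val (φ.injective (Subtype.ext e))

theorem exists_pr (j : Ordinal.{0}) : ∃ φ : Ordinal.{0} × Ordinal.{0} → Ordinal.{0},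
    (∀ a, φ a ∈ Iio (bo j)) ∧ InjOn φ (Iio (bo j) ×ˢ Iio (bo j)) :=
  exists_ext (by rw [mk_setProd, mk_Iio_bo, bc_mul_self]) ⟨0, (bo_limit j).bot_lt⟩

/-- A pairing function on `ℶ_j`. -/
noncomputable def pr (j : Ordinal.{0}) : Ordinal.{0} × Ordinal.{0} → Ordinal.{0} :=
  (exists_pr j).choose

/-- The column of lower level that stands for the time `η`. -/
noncomputable def io (j : Ordinal.{0}) (ρ : Ordinal.{0} → Ordinal.{0}) (η : Ordinal.{0}) :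
    Ordinal.{0} := pr j (ρ η, rk {z | ρ z ≤ ρ η} η)

theorem io_lt (j : Ordinal.{0}) (ρ : Ordinal.{0} → Ordinal.{0}) (η : Ordinal.{0}) :
    io j ρ η < bo j := (exists_pr j).choose_spec.1 _

theorem io_congr {j η : Ordinal.{0}} {ρ ρ' : Ordinal.{0} → Ordinal.{0}} (h : ρ η = ρ' η)
    (h' : ∀ z < η, ρ z ≤ ρ η ↔ ρ' z ≤ ρ' η) : io j ρ η = io j ρ' η := by
  rw [io, io, rk_congr (D := {z | ρ z ≤ ρ η}) (D' := {z | ρ' z ≤ ρ' η}) h', h]

theorem io_inj {j θ : Ordinal.{0}} (hj : 1 ≤ j) {e : Ordinal.{0} → G}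
    {ρ : Ordinal.{0} → Ordinal.{0}} (h : Row j θ e ρ) : InjOn (io j ρ) (Iio θ) := by
  have key : ∀ η < θ, (ρ η, rk {z | ρ z ≤ ρ η} η) ∈ Iio (bo j) ×ˢ Iio (bo j) := by
    intro η a
    refine ⟨h.lt η a, lt_of_lt_of_le (rk_bound (isRegular_succ (self_le_add_left ℵ₀ (ρ η).card))
      (lt_of_le_of_lt ?_ (Cardinal.lift_lt.2 (lt_succ _)))) (Cardinal.ord_le_ord.2
      (succ_le_of_lt (Cardinal.add_lt_of_lt (aleph0_le_beth j) (Cardinal.lt_ord.1 (h.lt η a)) ?_)))⟩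
    · exact le_trans (mk_le_mk_of_subset fun z hz => And.intro (hz.1.trans a) hz.2) (h.few (ρ η))
    · rw [← beth_zero]
      exact beth_lt_beth.2 (zero_lt_one.trans_le hj)
  intro η a η' b e
  have := (exists_pr j).choose_spec.2 (key η a) (key η' b) e
  obtain ⟨h1, h2⟩ := Prod.mk.inj this
  rw [h1] at h2
  rcases lt_trichotomy η η' with k | k | k
  · exact ((rk_lt k (D := {z | ρ z ≤ ρ η'}) h1.le).ne h2).elim
  · exact k
  · exact ((rk_lt k (D := {z | ρ z ≤ ρ η'}) (le_refl (ρ η'))).ne' h2).elim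

theorem io_coh {j ξ θ η : Ordinal.{0}} {ρ ρ' : Ordinal.{0} → Ordinal.{0}} (h : Coh ξ θ ρ ρ')
    (a : η < θ) (b : bo ξ < ρ' η) : io j ρ η = io j ρ' η := by
  have h1 : ρ η = ρ' η := by
    have := h η a
    rw [max_eq_left b.le] at this
    rcases max_choice (ρ η) (bo ξ) with k | k
    · exact k.symm.trans this
    · exact (b.ne (k.symm.trans this)).elim
  refine io_congr h1 fun z c => ?_
  rw [h1, ← and_iff_left b.le (a := ρ z ≤ ρ' η), ← max_le_iff, h z (c.trans a), max_le_iff,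
    and_iff_left b.le]

theorem exists_dec : ∃ dec : Ordinal.{0} → ℕ → G,
    ∀ u : ℕ → G, (∀ n, u n ∈ Gs (Iio ω₁)) → ∃ s < bo (0 + 1), dec s = u := by
  have h1 : #(Iio ω₁) ≤ bc (0 + 1) := la_zero ▸ mk_Iio_la 0
  let S : Set (ULift.{1} ℕ → G) :=
    {u | (∀ n ∈ Set.univ, u n ∈ (Gs (Iio ω₁) : Set G)) ∧ ∀ n ∉ Set.univ, u n = 0}
  obtain ⟨φ, a, b⟩ := exists_ext (S := S) (T := Iio (bo (0 + 1))) ((mk_supp _ _ _).trans
    (mk_Iio_bo _ ▸ pow_le_bc (mk_Gs ⟨0, omega1_limit'.bot_lt⟩ h1) (by simp)))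
    ⟨0, (bo_limit _).bot_lt⟩
  refine ⟨fun s n => Function.invFunOn φ S s ⟨n⟩, fun u hu => ⟨φ fun n => u n.down, a _, ?_⟩⟩
  funext n
  exact congrFun (b.leftInvOn_invFunOn (show (fun n => u n.down) ∈ S from
    ⟨fun n _ => hu _, fun _ h => (h trivial).elim⟩)) ⟨n⟩

/-- Decoding of sequences of labels. -/
noncomputable def dec : Ordinal.{0} → ℕ → G := exists_dec.choose

theorem exists_split {ι : Type 1} [Countable ι] (u : ι → ℕ → G)
    (hu : ∀ i, Function.Injective (u i)) : ∃ x : G → Bool, ∀ i ε N, ∃ n ≥ N, x (u i n) = ε := by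
  classical
  rcases isEmpty_or_nonempty ι with h | h
  · exact ⟨fun _ => true, fun i => isEmptyElim i⟩
  obtain ⟨t, ht⟩ := exists_surjective_nat (ι × Bool × ℕ)
  have : ∀ (k : ℕ) (S : Finset G), ∃ n ≥ (t k).2.2, u (t k).1 n ∉ S := fun k S => by
    obtain ⟨n, a, b⟩ := (Set.Ici_infinite (t k).2.2).exists_notMem_finite
      (S.finite_toSet.preimage (hu (t k).1).injOn)
    exact ⟨n, a, b⟩
  choose ch c1 c2 using this
  let S : ℕ → Finset G := fun k => Nat.rec ∅ (fun k S => insert (u (t k).1 (ch k S)) S) k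
  let w : ℕ → G := fun k => u (t k).1 (ch k (S k))
  have hS : ∀ l k, k < l → w k ∈ S l := fun l => by
    induction l with
    | zero => simp
    | succ l ih =>
      intro k hk
      rcases Nat.lt_succ_iff_lt_or_eq.1 hk with a | a
      · exact Finset.mem_insert_of_mem (ih k a)
      · subst a
        exact Finset.mem_insert_self _ _
  have hw : Function.Injective w := fun k l e => by
    rcases lt_trichotomy k l with a | a | a
    · exact (c2 l (S l) (show w l ∈ S l from e ▸ hS l k a)).elim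
    · exact a
    · exact (c2 k (S k) (show w k ∈ S k from e ▸ hS k l a)).elim
  refine ⟨fun g => (t (Function.invFun w g)).2.1, fun i ε N => ?_⟩
  obtain ⟨k, hk⟩ := ht (i, ε, N)
  refine ⟨ch k (S k), by simpa [hk] using c1 k (S k), ?_⟩
  have := Function.leftInverse_invFun hw k
  simp only [w, hk] at this
  simp only [w, this, hk]

theorem countable_of_le {X : Type 1} (h : #X ≤ bc 0) : Countable X :=
  mk_le_aleph0_iff.1 (by simpa using h)

theorem exists_X (j : Ordinal.{0}) (g : Iio j → Ordinal.{0}) : ∃ x : G → Bool, j < ω₁ →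
    ∀ i, Function.Injective (dec (g i)) → ∀ d ∈ Gs (Iic j), ∀ ε N, ∃ n ≥ N,
      x (dec (g i) n + d) = ε := by
  by_cases hj : j < ω₁
  · have h1 : #(Iio (j + 1)) ≤ bc 0 := mk_Iio_le (la_zero ▸ omega1_limit'.add_one_lt hj)
    have := countable_of_le (mk_Iio_le (la_zero ▸ hj : j < la 0))
    have := countable_of_le (mk_Gs (S := Iic j) nonempty_Iic (le_trans (mk_le_mk_of_subset
      fun _ k => mem_Iio.2 (lt_add_one_iff.2 (mem_Iic.1 k))) h1))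
    obtain ⟨x, hx⟩ := exists_split (ι := {i // Function.Injective (dec (g i))} × Gs (Iic j))
      (fun s n => dec (g s.1.1) n + s.2.1) fun s a b e => s.1.2 (add_right_cancel e)
    exact ⟨x, fun _ i a d b => hx (⟨i, a⟩, ⟨d, b⟩)⟩
  · exact ⟨fun _ => true, fun h => (hj h).elim⟩

/-- The colouring of labels used at level `j`. -/
noncomputable def XX (j : Ordinal.{0}) (g : Iio j → Ordinal.{0}) : G → Bool := (exists_X j g).choose

theorem exists_strictMono {b : ℕ → Ordinal.{0}} (h : Function.Injective b) :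
    ∃ φ : ℕ → ℕ, Function.Injective φ ∧ StrictMono (b ∘ φ) := by
  obtain ⟨g, hg⟩ := (Set.isPWO_of_wellQuasiOrderedLE univ).exists_monotone_subseq (f := b)
    fun _ => trivial
  exact ⟨g, g.injective, hg.strictMono_of_injective (h.comp g.injective)⟩

end Pool.Agent.MP_7b2404_lc

end

-- part MP_7b2404_lc.Colour
section

/-!
The generic colouring.
-/

namespace Pool.Agent.MP_7b2404_lc

open Cardinal Ordinal Set Order Filter

/-- The column `x` has level `j` and is listed at time `η`. -/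
structure Lv (p : PP) (j x η : Ordinal.{0}) : Prop where
  one : 1 ≤ j
  lt : j < ω₁
  lo : bo j ≤ x
  hi : x < bo (j + 1)
  t : CC.T j p.1 x η

theorem Lv.mono {p q : PP} {j x η : Ordinal.{0}} (h : q ≤ p) (a : Lv p j x η) : Lv q j x η :=
  ⟨a.one, a.lt, a.lo, a.hi, a.t.mono h.1⟩

theorem Lv.uniq {p : PP} {j x η j' η' : Ordinal.{0}} (a : Lv p j x η) (b : Lv p j' x η') :
    j = j' ∧ η = η' := by
  obtain rfl := level_unique a.lo a.hi b.lo b.hi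
  exact ⟨rfl, (a.t.inj b.t).1 rfl⟩

theorem Lv.not_lt {p : PP} {j x η : Ordinal.{0}} (a : Lv p j x η) : ¬ x < bo 1 :=
  ((bo_mono a.one).trans a.lo).not_gt

/-- The colour of the pair `(β, x)` as decided by `p`. -/
inductive Col (p : PP) (β : Ordinal.{0}) : Ordinal.{0} → Bool → Prop
  | base {x ε} : x < bo 1 → ε = false → Col p β x ε
  | high {x j η ε} : Lv p j x η → p.2.f β j < η → η ≤ p.2.θ j → j ≤ p.1.len 0 →
      ε = XX j (fun i => p.1.g 0 i) (p.2.e j η (p.2.f β j)) → Col p β x ε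
  | eq {x j ε} : Lv p j x (p.2.f β j) → ε = false → Col p β x ε
  | low {x j η ε} : Lv p j x η → η < p.2.f β j → p.2.f β j ≤ p.2.θ j →
      Col p β (io j (p.2.ρ j (p.2.f β j)) η) ε → Col p β x ε

theorem io_ext {p q : PP} (h : q ≤ p) {j η a : Ordinal.{0}} (hj : j < ω₁) (h1 : η < a)
    (h2 : a ≤ p.2.θ j) : io j (q.2.ρ j a) η = io j (p.2.ρ j a) η := by
  have := fun z hz => (((h.2.1 j hj).2 a h2 z hz).2)
  exact io_congr (this η h1) fun z hz => by rw [this η h1, this z (hz.trans h1)]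

theorem f_ext {p q : PP} (h : q ≤ p) {β j : Ordinal.{0}} (hβ : β ≤ p.2.γ) (hj : j < ω₁) :
    q.2.f β j = p.2.f β j := (h.2.2.2 β hβ).1 j hj

theorem Col.mono {p q : PP} {β x : Ordinal.{0}} {ε : Bool} (h : q ≤ p) (hβ : β ≤ p.2.γ)
    (a : Col p β x ε) : Col q β x ε := by
  induction a with
  | base a b => exact base a b
  | @high x j η ε a b c d e =>
    have k := f_ext h hβ a.lt
    refine high (a.mono h) (k ▸ b) (c.trans (h.2.1 j a.lt).1) (d.trans (h.1 0).1) ?_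
    rw [e, k, ((h.2.1 j a.lt).2 η c _ b).1]
    congr 1
    exact funext fun i => ((h.1 0).2 i (lt_of_lt_of_le i.2 d)).symm
  | @eq x j ε a b => exact eq (j := j) (f_ext h hβ a.lt ▸ a.mono h) b
  | @low x j η ε a b c _ ih =>
    have k := f_ext h hβ a.lt
    refine low (a.mono h) (k ▸ b) (k ▸ c.trans (h.2.1 j a.lt).1) ?_
    rwa [k, io_ext h a.lt b c]

theorem Col.uniq {p : PP} {β x : Ordinal.{0}} {ε ε' : Bool} (a : Col p β x ε) (b : Col p β x ε') :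
    ε = ε' := by
  induction a with
  | base a e =>
    cases b with
    | base _ e' => rw [e, e']
    | high b => exact (b.not_lt a).elim
    | eq b => exact (b.not_lt a).elim
    | low b => exact (b.not_lt a).elim
  | high a a1 _ _ e =>
    cases b with
    | base b => exact (a.not_lt b).elim
    | high b _ _ _ e' =>
      obtain ⟨rfl, rfl⟩ := a.uniq b
      rw [e, e']
    | eq b =>
      obtain ⟨rfl, rfl⟩ := a.uniq b
      exact a1.false.elim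
    | low b b1 =>
      obtain ⟨rfl, rfl⟩ := a.uniq b
      exact (a1.asymm b1).elim
  | eq a e =>
    cases b with
    | base b => exact (a.not_lt b).elim
    | high b b1 =>
      obtain ⟨rfl, rfl⟩ := a.uniq b
      exact b1.false.elim
    | eq _ e' => rw [e, e']
    | low b b1 =>
      obtain ⟨rfl, rfl⟩ := a.uniq b
      exact b1.false.elim
  | low a a1 _ _ ih =>
    cases b with
    | base b => exact (a.not_lt b).elim
    | high b b1 =>
      obtain ⟨rfl, rfl⟩ := a.uniq b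
      exact (a1.asymm b1).elim
    | eq b =>
      obtain ⟨rfl, rfl⟩ := a.uniq b
      exact a1.false.elim
    | low b _ _ b2 =>
      obtain ⟨rfl, rfl⟩ := a.uniq b
      exact ih b2

theorem ext_lv {j x : Ordinal.{0}} (h1 : 1 ≤ j) (h2 : j < ω₁) (h3 : bo j ≤ x) (h4 : x < bo (j + 1))
    (p : PP) : ∃ q ≤ p, ∃ η, Lv q j x η ∧ η ≤ q.2.θ j ∧ j ≤ q.1.len 0 := by
  obtain ⟨c, c1, η, c2⟩ := CC.T_tot (InK.omega1.mono h2.le) h4 p.1
  obtain ⟨d, d1, d2, -⟩ := CC.extend InK.zero c (la_zero ▸ h2) (bo_limit _).bot_lt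
  obtain ⟨q, q1, q2⟩ := ext_θ h2 (c2.1.trans (c.len_lt j)) (d, p.2)
  exact ⟨q, q1.trans ⟨d1.trans c1, le_rfl⟩, η, ⟨h1, h2, h3, h4, (c2.mono d1).mono q1.1⟩, q2.le,
    d2.le.trans (q1.1 0).1⟩

theorem level_of {ξ x l : Ordinal.{0}} (h1 : bo ξ ≤ x) (h2 : x < bo l) :
    ∃ j, ξ ≤ j ∧ j < l ∧ bo j ≤ x ∧ x < bo (j + 1) := by
  obtain ⟨j, a, b⟩ := exists_level (η := x) (le_trans (by simpa using bo_mono (zero_le : 0 ≤ ξ)) h1)
  exact ⟨j, le_of_not_gt fun c => (h1.trans_lt b).not_ge (bo_mono (add_one_le_of_lt c)),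
    lt_of_not_ge fun c => (a.trans_lt h2).not_ge (bo_mono c), a, b⟩

theorem Col.tot {β x : Ordinal.{0}} (hx : x < bo ω₁) (p : PP) (hβ : β ≤ p.2.γ) :
    ∃ q ≤ p, ∃ ε, Col q β x ε := by
  induction x using WellFoundedLT.induction generalizing p with
  | _ x ih =>
    rcases lt_or_ge x (bo 1) with h | h
    · exact ⟨p, le_rfl, _, base h rfl⟩
    obtain ⟨j, h1, h2, h3, h4⟩ := level_of h hx
    obtain ⟨p', a1, a2⟩ := ext_θ h2 (p.2.f_lt β hβ j h2) p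
    obtain ⟨q, b1, η, b2, b3, b4⟩ := ext_lv h1 h2 h3 h4 p'
    have hq := b1.trans a1
    have k : q.2.f β j ≤ q.2.θ j := f_ext hq hβ h2 ▸ a2.le.trans (b1.2.1 j h2).1
    rcases lt_trichotomy (q.2.f β j) η with c | c | c
    · exact ⟨q, hq, _, high b2 c b3 b4 rfl⟩
    · exact ⟨q, hq, _, eq (c ▸ b2) rfl⟩
    · have l := (io_lt j (q.2.ρ j (q.2.f β j)) η).trans_le h3
      have hβ' := hβ.trans hq.2.2.1
      obtain ⟨r, r1, ε, r2⟩ := ih _ l (l.trans hx) q hβ'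
      have m := f_ext r1 hβ' h2
      refine ⟨r, r1.trans hq, ε, low (b2.mono r1) (m ▸ c) (m ▸ k.trans (r1.2.1 j h2).1) ?_⟩
      rwa [m, io_ext r1 h2 c k]

/-- A condition that has caught an increasing sequence of rows below `γ` with distinct labels. -/
structure Caught (r : PP) (γ ξ : Ordinal.{0}) (b : ℕ → Ordinal.{0}) : Prop where
  one : 1 ≤ ξ
  lt : ξ < ω₁
  b_lt : ∀ n, b n < γ
  γ_le : γ ≤ r.2.γ
  inj : Function.Injective fun n => r.2.E γ (b n)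
  code : ∃ i < ξ, i < r.1.len 0 ∧ dec (r.1.g 0 i) = fun n => r.2.E γ (b n)
  mono : ∀ j, ξ ≤ j → j < ω₁ → StrictMono fun n => r.2.f (b n) j
  link : ∀ j, ξ ≤ j → j < ω₁ → ∀ n, r.2.f (b n) j < r.2.f γ j ∧
    r.2.e j (r.2.f γ j) (r.2.f (b n) j) = r.2.E γ (b n) ∧
    Coh ξ (r.2.f (b n) j) (r.2.ρ j (r.2.f (b n) j)) (r.2.ρ j (r.2.f γ j))
  le : ∀ j, ξ ≤ j → j < ω₁ → r.2.f γ j ≤ r.2.θ j ∧ r.2.f γ j ≤ r.1.len j

/-- Both colours occur infinitely often in the column `x`. -/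
def Good (r : PP) (b : ℕ → Ordinal.{0}) (x : Ordinal.{0}) : Prop :=
  ∀ ε, ∀ t ≤ r, ∀ N, ∃ t' ≤ t, ∃ n ≥ N, Col t' (b n) x ε

namespace Caught

variable {r : PP} {γ ξ : Ordinal.{0}} {b : ℕ → Ordinal.{0}} (h : Caught r γ ξ b)

include h

theorem bad {j x : Ordinal.{0}} (h1 : ξ ≤ j) (h2 : j < ω₁) (h3 : bo j ≤ x) (h4 : x < bo (j + 1))
    (hx : ¬ Good r b x) : ∃ η < r.2.f γ j, r.1.g j η = x ∧
      (r.2.ρ j (r.2.f γ j) η ≤ bo ξ ∨ ¬ Good r b (io j (r.2.ρ j (r.2.f γ j)) η)) := by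
  by_contra hc
  refine hx fun ε t0 ht0 N => ?_
  obtain ⟨t, a1, η, a2, a3, a4⟩ := ext_lv (h.one.trans h1) h2 h3 h4 t0
  have ht := a1.trans ht0
  have hb : ∀ n, b n ≤ r.2.γ := fun n => (h.b_lt n).le.trans h.γ_le
  have l := h.link j h1 h2
  have m := h.le j h1 h2
  by_cases c : ∃ M, η < r.2.f (b M) j
  · obtain ⟨M, c⟩ := c
    have d := c.trans (l M).1
    have : bo ξ < r.2.ρ j (r.2.f γ j) η ∧ Good r b (io j (r.2.ρ j (r.2.f γ j)) η) := by
      by_contra k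
      refine hc ⟨η, d, ((ht.1 j).2 η (d.trans_le m.2)).symm.trans a2.t.2.1, ?_⟩
      rwa [not_and_or, not_lt] at k
    obtain ⟨t', e1, n, e2, e3⟩ := this.2 ε t ht (max N M)
    have e4 := e1.trans ht
    have k := f_ext e4 (hb n) h2
    have c' : η < r.2.f (b n) j := c.trans_le ((h.mono j h1 h2).monotone (le_of_max_le_right e2))
    have c'' := (l n).1.le.trans m.1
    refine ⟨t', e1.trans a1, n, le_of_max_le_left e2, Col.low (a2.mono e1) (k ▸ c')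
      (k ▸ c''.trans (e4.2.1 j h2).1) ?_⟩
    rwa [k, io_ext e4 h2 c' c'', io_coh (l n).2.2 c' this.1]
  · have c' : ∀ n, r.2.f (b n) j < η := fun n =>
      (h.mono j h1 h2 (Nat.lt_succ_self n)).trans_le (not_lt.1 fun k => c ⟨_, k⟩)
    have m' := m.1.trans (ht.2.1 j h2).1
    obtain ⟨d, hd⟩ := (t.2.loc j h2).lc _ m' _ a3 _ (h.mono j h1 h2) fun n => lt_min (l n).1 (c' n)
    obtain ⟨M, hM⟩ := eventually_atTop.1 hd
    have hd' : d ∈ Gs (Iic j) := by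
      rw [← add_sub_cancel_left (t.2.e j (r.2.f γ j) (r.2.f (b M) j)) d, ← hM M le_rfl]
      exact sub_mem (((t.2.loc j h2).row _ a3).supp _ (c' M))
        (((t.2.loc j h2).row _ m').supp _ (l M).1)
    obtain ⟨i, i1, i2, i3⟩ := h.code
    have i4 : dec (t.1.g 0 i) = fun n => r.2.E γ (b n) := (ht.1 0).2 i i2 ▸ i3
    obtain ⟨n, n1, n2⟩ := (exists_X j fun i => t.1.g 0 i).choose_spec h2 ⟨i, i1.trans_le h1⟩
      (i4 ▸ h.inj) d hd' ε (max N M)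
    have k := f_ext ht (hb n) h2
    refine ⟨t, a1, n, le_of_max_le_left n1, Col.high a2 (k ▸ c' n) a3 a4 ?_⟩
    rw [k, hM n (le_of_max_le_right n1), ((ht.2.1 j h2).2 _ m.1 _ (l n).1).1, (l n).2.1, ← n2, XX]
    simp only [i4]

theorem few {l : Ordinal.{0}} (hl : l ≤ ω₁) : #{x | x < bo l ∧ ¬ Good r b x} ≤ bc ξ := by
  induction l using WellFoundedLT.induction with
  | _ l ih =>
    have h0 : #(Iio l) ≤ bc ξ := (mk_le_mk_of_subset (Iio_subset_Iio hl)).trans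
      ((la_zero ▸ mk_Iio_la 0).trans (bc_mono (by simpa using h.one)))
    refine mk_union3 (x := 0) (A := Iio (bo ξ)) (B := {x | bo ξ ≤ x ∧ x < bo l ∧ ¬ Good r b x})
      (aleph0_le_bc ξ) (fun x hx => Or.inl ((lt_or_ge x (bo ξ)).imp_right fun a => ⟨a, hx⟩))
      (mk_Iio_bo ξ).le (mk_iUnion_le' (A := fun j => {x | ξ ≤ j ∧ bo j ≤ x ∧ x < bo (j + 1) ∧
        ¬ Good r b x}) (aleph0_le_bc ξ) (fun x hx => ?_) h0 fun j hj => ?_)
    · obtain ⟨j, a1, a2, a3, a4⟩ := level_of hx.1 hx.2.1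
      exact ⟨j, a2, a1, a3, a4, hx.2.2⟩
    rcases lt_or_ge j ξ with c | c
    · rw [mk_eq_zero_iff.2 (isEmpty_iff.2 fun x => c.not_ge x.2.1)]
      exact zero_le
    have hj' := hj.trans_le hl
    have row := (r.2.loc j hj').row _ (h.le j c hj').1
    refine le_trans (mk_le_mk_of_subset (t := r.1.g j '' ({η | η < r.2.f γ j ∧
      r.2.ρ j (r.2.f γ j) η ≤ bo ξ} ∪ {η | η < r.2.f γ j ∧
        ¬ Good r b (io j (r.2.ρ j (r.2.f γ j)) η)})) fun x hx => ?_) (mk_image_le.trans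
      ((mk_union_le _ _).trans (add_le_bc ((row.few _).trans ?_) (le_trans ?_ (ih j hj hj'.le)))))
    · obtain ⟨η, a1, a2, a3⟩ := h.bad c hj' hx.2.1 hx.2.2.1 hx.2.2.2
      exact ⟨η, a3.imp (fun k => ⟨a1, k⟩) fun k => ⟨a1, k⟩, a2⟩
    · rw [sz, Cardinal.card_ord, Cardinal.add_eq_left (aleph0_le_beth ξ) (aleph0_le_beth ξ)]
    · exact mk_le_of_injective (f := fun η => ⟨io j (r.2.ρ j (r.2.f γ j)) η.1, io_lt _ _ _, η.2.2⟩)
        fun a a' e => Subtype.ext (io_inj (h.one.trans c) row a.2.1 a'.2.1 (congrArg Subtype.val e))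

end Caught

theorem fin_bdd (S : Finset G) (h : ∀ g ∈ S, g ∈ Gs (Iio ω₁)) :
    ∃ ξ < ω₁, ∀ g ∈ S, g ∈ Gs (Iic ξ) := by
  classical
  refine ⟨(S.biUnion Finsupp.support).sup id, (Finset.sup_lt_iff omega1_limit'.bot_lt).2
    fun a ha => ?_, fun g hg a ha => Finset.le_sup (f := id) (Finset.mem_biUnion.2 ⟨g, hg, ha⟩)⟩
  obtain ⟨g, h1, h2⟩ := Finset.mem_biUnion.1 ha
  exact h g h1 h2

theorem exists_seq {p : PP} {γ : Ordinal.{0}} (hγ : γ ≤ p.2.γ) {A : PP → Set Ordinal.{0}}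
    (h1 : ∀ t t', t' ≤ t → A t ⊆ A t') (h2 : ∀ t ≤ p, ∀ ξ < ω₁, ∀ S : Set Ordinal.{0},
      #S ≤ bc ξ → ∃ t' ≤ t, ∃ β ∈ A t', β < γ ∧ β ∉ S) :
    ∃ q ≤ p, ∃ b : ℕ → Ordinal.{0}, StrictMono b ∧ (∀ n, b n ∈ A q ∧ b n < γ) ∧
      Function.Injective fun n => p.2.E γ (b n) := by
  classical
  let L : PP → Set G := fun q => {g | ∃ β ∈ A q, β < γ ∧ p.2.E γ β = g}
  have hL : ∀ t t', t' ≤ t → L t ⊆ L t' := fun t t' a g ⟨β, c, d⟩ => ⟨β, h1 t t' a c, d⟩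
  have key : ∀ n, ∀ t ≤ p, ∃ t' ≤ t, ∃ S : Finset G, S.card = n ∧ ↑S ⊆ L t' := fun n => by
    induction n with
    | zero => exact fun t _ => ⟨t, le_rfl, ∅, rfl, by simp⟩
    | succ n ih =>
      intro t ht
      obtain ⟨t1, a1, S, a2, a3⟩ := ih t ht
      obtain ⟨ξ, c1, c2⟩ := fin_bdd S fun g hg => by
        obtain ⟨β, -, d, rfl⟩ := a3 hg
        exact (p.2.E_spec d hγ).2
      obtain ⟨t2, d1, β, d2, d3, d4⟩ := h2 t1 (a1.trans ht) ξ c1 _ (p.2.g2 γ hγ ξ c1)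
      refine ⟨t2, d1.trans a1, insert (p.2.E γ β) S, ?_, ?_⟩
      · rw [Finset.card_insert_of_notMem fun k => d4 ⟨d3, c2 _ k⟩, a2]
      · rw [Finset.coe_insert]
        exact insert_subset ⟨β, d2, d3, rfl⟩ (a3.trans (hL _ _ d1))
  obtain ⟨q, a, hq⟩ := dist0
    (fun n => {q | (∃ S : Finset G, S.card = n ∧ ↑S ⊆ L q) ∨ ∀ s ≤ q, ¬ s ≤ p})
    (fun n t t' k m => m.imp (fun ⟨S, c, d⟩ => ⟨S, c, d.trans (hL _ _ k)⟩)
      fun c s d => c s (d.trans k))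
    (fun n t => by
      by_cases c : ∃ s ≤ t, s ≤ p
      · obtain ⟨s, c, d⟩ := c
        obtain ⟨t', e, k⟩ := key n s d
        exact ⟨t', e.trans c, Or.inl k⟩
      · exact ⟨t, le_rfl, Or.inr fun s d e => c ⟨s, d, e⟩⟩) p
  have hi : (L q).Infinite := fun k => by
    obtain ⟨S, c, d⟩ := (hq (k.toFinset.card + 1)).resolve_right fun c => c q le_rfl a
    have := Finset.card_le_card (show S ⊆ k.toFinset from fun g e => k.mem_toFinset.2 (d e))
    omega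
  choose β b1 b2 b3 using fun n => (hi.natEmbedding _ n).2
  have hu : Function.Injective fun n => p.2.E γ (β n) := fun m n e =>
    (hi.natEmbedding _).injective (Subtype.ext ((b3 m).symm.trans (e.trans (b3 n))))
  obtain ⟨φ, c1, c2⟩ := exists_strictMono (b := β) fun m n e => hu (congrArg (p.2.E γ) e)
  exact ⟨q, a, β ∘ φ, c2, fun n => ⟨b1 _, b2 _⟩, hu.comp c1⟩

theorem exists_caught {p : PP} {γ : Ordinal.{0}} (hγ : γ ≤ p.2.γ) {b : ℕ → Ordinal.{0}}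
    (h1 : StrictMono b) (h2 : ∀ n, b n < γ) (h3 : Function.Injective fun n => p.2.E γ (b n)) :
    ∃ r ≤ p, ∃ ξ, Caught r γ ξ b := by
  obtain ⟨s, s1, s2⟩ := exists_dec.choose_spec _ fun n => (p.2.E_spec (h2 n) hγ).2
  obtain ⟨c, c1, -, c2, c3⟩ := CC.extend InK.zero p.1 (la_limit 0).bot_lt s1
  obtain ⟨d, d1, d2⟩ := CC.extend_all c (p.2.f γ) (p.2.f_lt γ hγ)
  choose ξ1 a1 k1 a2 a3 using fun n => p.2.g1 _ _ (h2 n) hγ
  choose ξ2 _a0 k2 a4 a5 using fun n => p.2.g1 _ _ (h1 (Nat.lt_succ_self n)) ((h2 _).le.trans hγ)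
  obtain ⟨k3, a6, a7⟩ := p.2.f_le hγ
  have i1 : p.1.len 0 < ω₁ := la_zero ▸ p.1.len_lt 0
  obtain ⟨ξ, e1, e2⟩ := bdd_omega1 (fun n => max (max (ξ1 n) (k1 n)) (max (k2 n)
    (max k3 (p.1.len 0 + 1)))) fun n =>
      max_lt (max_lt (a1 n) (a2 n)) (max_lt (a4 n) (max_lt a6 (omega1_limit'.add_one_lt i1)))
  simp only [max_le_iff] at e2
  refine ⟨(d, p.2), ⟨d1.trans c1, le_rfl⟩, ξ, le_trans (by simp) (e2 0).2.2.2, e1, h2, hγ, h3,
    ⟨p.1.len 0, add_one_le_iff.1 (e2 0).2.2.2, c2.trans_le (d1 0).1, ?_⟩,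
    fun j u v => strictMono_nat_of_lt_succ fun n => (a5 n j ((e2 n).2.1.trans u) v).1,
    fun j u v n => ?_, fun j u v => ⟨a7 j ((e2 0).2.2.1.trans u) v, d2 j v⟩⟩
  · rw [(d1 0).2 _ c2, c3]
    exact s2
  · have := a3 n j ((e2 n).1.2.trans u) v
    exact ⟨this.1, this.2.1, this.2.2.mono (e2 n).1.1 le_rfl⟩

/-- The forcing has all the required properties. -/
noncomputable def data : Data PP where
  ne := ⟨(CC.one, SS.one)⟩
  J := lays.J
  Uo := lays.Uo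
  cardJ α _ := lays.cardJ α
  lower := lays.lower
  red α h I a D _ := lays.red α h I a D
  T α p := CC.T α p.1
  T_mono h a := a.mono h.1
  T_inj := CC.T.inj
  T_lt a := a.1.trans (CC.len_lt _ _)
  T_tot α h x hx p := let ⟨q, a, b⟩ := CC.T_tot h hx p.1; ⟨(q, p.2), ⟨a, le_rfl⟩, b⟩
  C p β x ε := β ≤ p.2.γ ∧ Col p β x ε
  C_mono h a := ⟨a.1.trans h.2.2.1, a.2.mono h a.1⟩
  C_fun a b := a.2.uniq b.2
  C_tot β h x hx p := by
    obtain ⟨q, a, b⟩ := ext_γ h p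
    obtain ⟨r, c, ε, d⟩ := Col.tot hx q b.le
    exact ⟨r, c.trans a, ε, b.le.trans c.2.2.1, d⟩
  split p γ h A h1 h2 := by
    obtain ⟨p', a1, a2⟩ := ext_γ h p
    obtain ⟨q, b1, b, b2, b3, b4⟩ := exists_seq a2.le h1 fun t ht => h2 t (ht.trans a1)
    have hγ := a2.le.trans b1.2.2.1
    obtain ⟨r, c1, ξ, c2⟩ := exists_caught hγ b2 (fun n => (b3 n).2) fun m n e => b4 (by
      simpa only [(b1.2.2.2 γ a2.le).2 _ (b3 _).2] using e)
    refine ⟨r, c1.trans (b1.trans a1), ξ, c2.lt, _, c2.few le_rfl, fun x hx hz ε t ht => ?_⟩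
    obtain ⟨t', d1, n, -, d2⟩ := not_not.1 (fun k => hz ⟨hx, k⟩) ε t ht 0
    have d3 := (d1.trans ht).trans c1
    exact ⟨t', d1, b n, h1 _ _ d3 (b3 n).1, (b3 n).2, (b3 n).2.le.trans (hγ.trans d3.2.2.1), d2⟩

end Pool.Agent.MP_7b2404_lc

end
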